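import Mathlib

/-!
# T3, (W1#): the prefix lemma (averages of a divisor function over values with small densities). Definitions

`ι` is a finite linearly ordered type (of primes) with a monotone norm `N`; integers (ideals) are exponent vectors `e : ι → ℕ`.
* `nn N e = ∏ N l ^ e l`; `tau P e = ∏_{l ∈ P} (e l + 1)`; `pre e l0` the part of `e` on the primes before `l0`.
* `Hyp B N`: `N ≥ 2`, `N` monotone, `∑ N^(-3/2) ≤ B` and Mertens' upper bound with the constant `B`.
* `Den B N Z w`: the local densities `w l k` of divisibility by `l ^ k`; `Z` is the set of bad primes.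
-/

set_option autoImplicit false

noncomputable section

namespace H51.AV

/-- the norm of an exponent vector -/
def nn {ι : Type} [Fintype ι] (N : ι → ℝ) (e : ι → ℕ) : ℝ := ∏ l, N l ^ e l

/-- the number of divisors composed of primes of `P` -/
def tau {ι : Type} (P : Finset ι) (e : ι → ℕ) : ℝ := ∏ l ∈ P, ((e l : ℝ) + 1)

/-- the part of `e` on the primes before `l0` -/
def pre {ι : Type} [LinearOrder ι] (e : ι → ℕ) (l0 : ι) : ι → ℕ := fun l => if l < l0 then e l else 0

/-- the standing hypotheses on the primes -/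
structure Hyp {ι : Type} [Fintype ι] [LinearOrder ι] (B : ℝ) (N : ι → ℝ) : Prop where
  two : ∀ l, 2 ≤ N l
  mono : Monotone N
  sq : ∑ l, N l ^ (-(3 / 2) : ℝ) ≤ B
  mer : ∀ x : ℝ, 1 ≤ x → ∑ l with N l ≤ x, Real.log (N l) / N l ≤ B * (1 + Real.log x)

/-- the standing hypotheses on the densities -/
structure Den {ι : Type} (B : ℝ) (N : ι → ℝ) (Z : Finset ι) (w : ι → ℕ → ℝ) : Prop where
  w0 : ∀ l, w l 0 = 1
  nonneg : ∀ l k, 0 ≤ w l k
  le : ∀ l k, 1 ≤ k → w l k ≤ B * N l ^ (-(((k + 1) / 2 : ℕ) : ℝ))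
  w1 : ∀ l, l ∉ Z → w l 1 ≤ 1 / N l + B / N l ^ 2
  w2 : ∀ l, l ∉ Z → w l 2 ≤ B / N l ^ 2

/-- the local function `(k + 1) N^(k σ)` (on `P`), `N^(k σ)` (outside `P`) -/
def ff {ι : Type} [DecidableEq ι] (N : ι → ℝ) (P : Finset ι) (σ : ℝ) (l : ι) (k : ℕ) : ℝ :=
  (if l ∈ P then (k : ℝ) + 1 else 1) * N l ^ ((k : ℝ) * σ)

theorem one_le_nn {ι : Type} [Fintype ι] [LinearOrder ι] {B : ℝ} {N : ι → ℝ} (h : Hyp B N) (e : ι → ℕ) :
    1 ≤ nn N e := by
  have h1 : ∏ _l : ι, (1 : ℝ) ≤ ∏ l, N l ^ e l :=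
    Finset.prod_le_prod (fun _ _ => zero_le_one) (fun l _ => one_le_pow₀ (by have := h.two l; linarith))
  unfold nn; simpa using h1

end H51.AV
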