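import Pool.Agent.H51.AV.Tau

/-!
# (AV Pp) The `b` for which `E b` is divisible by a large power of a small prime
-/

set_option autoImplicit false

noncomputable section

namespace H51.AV

theorem nn_single {ι : Type} [Fintype ι] [DecidableEq ι] (N : ι → ℝ) (l : ι) (k : ℕ) :
    nn N (Pi.single l k) = N l ^ k := by
  unfold nn
  rw [Finset.prod_eq_single l]
  · simp
  · intro l' _ h
    simp [Pi.single_eq_of_ne h]
  · intro h
    exact absurd (Finset.mem_univ l) h

theorem pp {ι β : Type} [Fintype ι] [LinearOrder ι] {B : ℝ} (hB : 1 ≤ B) {N : ι → ℝ} (h : Hyp B N) {Z : Finset ι}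
    {w : ι → ℕ → ℝ} (hw : Den B N Z w) (M T U x : ℝ) (hT : 0 ≤ T) (hU : 1 ≤ U) (hx : 1 ≤ x) (hM : U * x ≤ M)
    (S : Finset β) (E : β → ι → ℕ)
    (hd : ∀ e : ι → ℕ, nn N e ≤ M →
      ((S.filter (fun b => ∀ l, e l ≤ E b l)).card : ℝ) ≤ T * ∏ l, w l (e l)) :
    ((S.filter (fun b => ∃ l, N l ≤ x ∧ U < N l ^ E b l)).card : ℝ) ≤
      T * (B * B * x ^ (3 / 2 : ℝ) * U ^ (-(1 / 2) : ℝ)) := by
  classical
  have hU0 : 0 < U := by linarith
  have h1 : S.filter (fun b => ∃ l, N l ≤ x ∧ U < N l ^ E b l) ⊆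
      (Finset.univ.filter (fun l => N l ≤ x)).biUnion (fun l => S.filter (fun b => U < N l ^ E b l)) := by
    intro b hb
    obtain ⟨hbS, l, hl, hlU⟩ := Finset.mem_filter.1 hb
    exact Finset.mem_biUnion.2 ⟨l, by simpa using hl, Finset.mem_filter.2 ⟨hbS, hlU⟩⟩
  have h2 : ∀ l ∈ Finset.univ.filter (fun l => N l ≤ x), ((S.filter (fun b => U < N l ^ E b l)).card : ℝ) ≤
      T * (B * U ^ (-(1 / 2) : ℝ)) := by
    intro l hl
    have hlx : N l ≤ x := (Finset.mem_filter.1 hl).2
    have hN2 := h.two l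
    have hN0 : 0 < N l := by linarith
    have hex : ∃ k : ℕ, U < N l ^ k := pow_unbounded_of_one_lt U (by linarith)
    set k := Nat.find hex with hk
    have hkU : U < N l ^ k := Nat.find_spec hex
    have hk1 : 1 ≤ k := by
      by_contra hcon
      have : k = 0 := by omega
      rw [this, pow_zero] at hkU
      linarith
    have hkm : N l ^ (k - 1) ≤ U := by
      have := Nat.find_min hex (m := k - 1) (by omega)
      exact not_lt.1 this
    have hkM : N l ^ k ≤ M := by
      calc N l ^ k = N l ^ (k - 1) * N l := by rw [← pow_succ]; congr 1; omega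
        _ ≤ U * x := mul_le_mul hkm hlx hN0.le hU0.le
        _ ≤ M := hM
    have h3 := hd (Pi.single l k) (by rw [nn_single]; exact hkM)
    have h4 : ∏ l', w l' ((Pi.single l k : ι → ℕ) l') = w l k := by
      rw [Finset.prod_eq_single l]
      · simp
      · intro l' _ hne
        rw [Pi.single_eq_of_ne hne, hw.w0]
      · intro hne
        exact absurd (Finset.mem_univ l) hne
    rw [h4] at h3
    have h5 : (S.filter (fun b => U < N l ^ E b l)).card ≤
        (S.filter (fun b => ∀ l', (Pi.single l k : ι → ℕ) l' ≤ E b l')).card := by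
      refine Finset.card_le_card fun b hb => ?_
      obtain ⟨hbS, hbU⟩ := Finset.mem_filter.1 hb
      refine Finset.mem_filter.2 ⟨hbS, fun l' => ?_⟩
      by_cases hl' : l' = l
      · subst hl'
        rw [Pi.single_eq_same]
        exact Nat.find_min' hex hbU
      · rw [Pi.single_eq_of_ne hl']
        exact Nat.zero_le _
    have h6 : w l k ≤ B * U ^ (-(1 / 2) : ℝ) := by
      refine (hw.le l k hk1).trans (mul_le_mul_of_nonneg_left ?_ (by linarith))
      have h7 : N l ^ (-(((k + 1) / 2 : ℕ) : ℝ)) ≤ N l ^ (-((k : ℝ) / 2)) := by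
        refine Real.rpow_le_rpow_of_exponent_le (by linarith) ?_
        have h8 : (k : ℝ) ≤ 2 * (((k + 1) / 2 : ℕ) : ℝ) := by
          have : k ≤ 2 * ((k + 1) / 2) := by omega
          exact_mod_cast this
        linarith
      refine h7.trans ?_
      have h9 : N l ^ (-((k : ℝ) / 2)) = (N l ^ k) ^ (-(1 / 2) : ℝ) := by
        rw [← Real.rpow_natCast, ← Real.rpow_mul hN0.le]
        congr 1
        ring
      rw [h9]
      exact Real.rpow_le_rpow_of_nonpos hU0 hkU.le (by norm_num)
    calc ((S.filter (fun b => U < N l ^ E b l)).card : ℝ) ≤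
        ((S.filter (fun b => ∀ l', (Pi.single l k : ι → ℕ) l' ≤ E b l')).card : ℝ) := by exact_mod_cast h5
      _ ≤ T * w l k := h3
      _ ≤ _ := mul_le_mul_of_nonneg_left h6 hT
  calc ((S.filter (fun b => ∃ l, N l ≤ x ∧ U < N l ^ E b l)).card : ℝ) ≤
      (((Finset.univ.filter (fun l => N l ≤ x)).biUnion (fun l => S.filter (fun b => U < N l ^ E b l))).card : ℝ) := by
        exact_mod_cast Finset.card_le_card h1
    _ ≤ ∑ l ∈ Finset.univ.filter (fun l => N l ≤ x), ((S.filter (fun b => U < N l ^ E b l)).card : ℝ) := by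
        exact_mod_cast Finset.card_biUnion_le
    _ ≤ ∑ l ∈ Finset.univ.filter (fun l => N l ≤ x), T * (B * U ^ (-(1 / 2) : ℝ)) := Finset.sum_le_sum h2
    _ = ((Finset.univ.filter (fun l => N l ≤ x)).card : ℝ) * (T * (B * U ^ (-(1 / 2) : ℝ))) := by
        rw [Finset.sum_const, nsmul_eq_mul]
    _ ≤ (B * x ^ (3 / 2 : ℝ)) * (T * (B * U ^ (-(1 / 2) : ℝ))) :=
        mul_le_mul_of_nonneg_right (card_le h x (by linarith)) (by
          have := Real.rpow_nonneg hU0.le (-(1 / 2) : ℝ)
          have : 0 ≤ B := by linarith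
          positivity)
    _ = _ := by ring

end H51.AV
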