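import Pool.Agent.H51.AV.Def

/-!
# (AV Pre) The prefix

PROOF. (1) If `nn N e > M ≥ 1` let `l0` be the least `l` with `∏_{l' ≤ l} N^e > M` (it exists: the last element with `e l ≠ 0`; the product over
`l' < l0` is the product over `l' ≤` the predecessor, or empty). (2) `nn N (pre e l0) ≤ M`. (3) `tau P e ≤ tau P (pre e l0) 2^(n)`,
`n = ∑_{l ≥ l0} e l`, because `k + 1 ≤ 2^k`; and `N l0 ^ n ≤ nn N e`.
-/

set_option autoImplicit false

noncomputable section

namespace H51.AV

variable {ι : Type} [Fintype ι] [LinearOrder ι] {B : ℝ} {N : ι → ℝ}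

/-- the prefix as a product over the primes before `l0` -/
theorem nn_pre (e : ι → ℕ) (l0 : ι) : nn N (pre e l0) = ∏ l with l < l0, N l ^ e l := by
  unfold nn pre
  rw [Finset.prod_filter]
  refine Finset.prod_congr rfl fun l _ => ?_
  split_ifs <;> simp

/-- the prefix and the prime itself -/
private theorem nn_pre_mul (e : ι → ℕ) (l0 : ι) :
    nn N (pre e l0) * N l0 ^ e l0 = ∏ l with l ≤ l0, N l ^ e l := by
  rw [nn_pre, mul_comm]
  have h1 : (Finset.univ.filter fun l => l ≤ l0) = insert l0 (Finset.univ.filter fun l => l < l0) := by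
    ext l
    simp only [Finset.mem_filter, Finset.mem_univ, true_and, Finset.mem_insert]
    exact le_iff_eq_or_lt
  rw [h1, Finset.prod_insert (by simp)]

theorem exists_pre (h : Hyp B N) (e : ι → ℕ) (M : ℝ) (hM : 1 ≤ M) (he : M < nn N e) :
    ∃ l0 : ι, nn N (pre e l0) ≤ M ∧ M < nn N (pre e l0) * N l0 ^ e l0 := by
  classical
  have _ := h.two
  set S : Finset ι := Finset.univ.filter fun l => M < nn N (pre e l) * N l ^ e l with hS
  have hne : S.Nonempty := by
    have hι : (Finset.univ : Finset ι).Nonempty := by
      by_contra hc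
      rw [Finset.not_nonempty_iff_eq_empty] at hc
      have : nn N e = 1 := by unfold nn; rw [hc]; simp
      linarith
    refine ⟨Finset.univ.max' hι, ?_⟩
    rw [hS, Finset.mem_filter]
    refine ⟨Finset.mem_univ _, ?_⟩
    rw [nn_pre_mul]
    have : (Finset.univ.filter fun l => l ≤ Finset.univ.max' hι) = Finset.univ := by
      rw [Finset.filter_eq_self]
      intro l _
      exact Finset.le_max' _ _ (Finset.mem_univ l)
    rw [this]
    exact he
  refine ⟨S.min' hne, ?_, ?_⟩
  · set l0 := S.min' hne with hl0
    rw [nn_pre]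
    rcases (Finset.univ.filter fun l => l < l0).eq_empty_or_nonempty with hF | hF
    · rw [hF]; simpa using hM
    · set l' := (Finset.univ.filter fun l => l < l0).max' hF with hl'
      have hlt : l' < l0 := by
        have := Finset.max'_mem _ hF
        rw [← hl', Finset.mem_filter] at this
        exact this.2
      have hnot : l' ∉ S := by
        intro hc
        have := Finset.min'_le S l' hc
        rw [← hl0] at this
        exact absurd hlt (not_lt.mpr this)
      rw [hS, Finset.mem_filter] at hnot
      push Not at hnot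
      have h2 := hnot (Finset.mem_univ _)
      rw [nn_pre_mul] at h2
      have h3 : (Finset.univ.filter fun l => l ≤ l') = (Finset.univ.filter fun l => l < l0) := by
        ext l
        simp only [Finset.mem_filter, Finset.mem_univ, true_and]
        constructor
        · intro hl; exact lt_of_le_of_lt hl hlt
        · intro hl
          exact Finset.le_max' _ _ (by simp [hl])
      rw [h3] at h2
      exact h2
  · exact (Finset.mem_filter.mp (Finset.min'_mem S hne)).2

/-- `X` bounds a power of the least prime of the rest -/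
theorem tau_pre (h : Hyp B N) (P : Finset ι) (e : ι → ℕ) (l0 : ι) :
    ∃ n : ℕ, tau P e ≤ tau P (pre e l0) * 2 ^ n ∧ N l0 ^ n ≤ nn N e := by
  classical
  refine ⟨∑ l with ¬ l < l0, e l, ?_, ?_⟩
  · unfold tau pre
    have h1 : ∏ l ∈ P, ((e l : ℝ) + 1)
        ≤ ∏ l ∈ P, ((((if l < l0 then e l else 0 : ℕ) : ℝ) + 1) * 2 ^ (if ¬ l < l0 then e l else 0)) := by
      refine Finset.prod_le_prod (fun l _ => by positivity) (fun l _ => ?_)
      by_cases hl : l < l0
      · simp [hl]
      · simp only [hl, if_false, not_false_eq_true, if_true, Nat.cast_zero, zero_add, one_mul]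
        have : e l + 1 ≤ 2 ^ e l := Nat.lt_two_pow_self
        exact_mod_cast this
    refine h1.trans ?_
    rw [Finset.prod_mul_distrib]
    refine mul_le_mul_of_nonneg_left ?_ (Finset.prod_nonneg fun l _ => by positivity)
    rw [Finset.prod_pow_eq_pow_sum]
    refine pow_le_pow_right₀ one_le_two ?_
    rw [Finset.sum_filter]
    exact Finset.sum_le_sum_of_subset (Finset.subset_univ P)
  · rw [← Finset.prod_pow_eq_pow_sum]
    unfold nn
    rw [← Finset.prod_filter_mul_prod_filter_not Finset.univ (fun l => l < l0)]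
    have h1 : (1 : ℝ) ≤ ∏ l with l < l0, N l ^ e l := by
      have := Finset.prod_le_prod (s := Finset.univ.filter fun l => l < l0) (f := fun _ => (1 : ℝ)) (g := fun l => N l ^ e l)
        (fun _ _ => zero_le_one) (fun l _ => one_le_pow₀ (by have := h.two l; linarith))
      simpa using this
    have h0 : ∀ l, 0 ≤ N l := fun l => by have := h.two l; linarith
    have h2 : ∏ l with ¬ l < l0, N l0 ^ e l ≤ ∏ l with ¬ l < l0, N l ^ e l := by
      refine Finset.prod_le_prod (fun l _ => pow_nonneg (h0 l0) _) (fun l hl => ?_)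
      rw [Finset.mem_filter] at hl
      exact pow_le_pow_left₀ (h0 l0) (h.mono (not_lt.mp hl.2)) _
    calc ∏ l with ¬ l < l0, N l0 ^ e l ≤ 1 * ∏ l with ¬ l < l0, N l ^ e l := by rw [one_mul]; exact h2
      _ ≤ _ := mul_le_mul_of_nonneg_right h1 (Finset.prod_nonneg fun l _ => pow_nonneg (h0 l) _)

theorem pre_le (e : ι → ℕ) (l0 l : ι) : pre e l0 l ≤ e l := by
  unfold pre
  split_ifs <;> simp

theorem nn_mono (h : Hyp B N) {e e' : ι → ℕ} (hee : ∀ l, e l ≤ e' l) : nn N e ≤ nn N e' := by
  unfold nn
  refine Finset.prod_le_prod (fun l _ => pow_nonneg (by have := h.two l; linarith) _) (fun l _ => ?_)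
  exact pow_le_pow_right₀ (by have := h.two l; linarith) (hee l)

end H51.AV
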