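import Pool.Agent.H51.AV.ClsG
import Pool.Agent.H51.AV.Pp
import Pool.Agent.H51.AV.Pre

/-!
# (AV PfxG) The prefix lemma with general local factors

PROOF. (With `tg` for `tau`, `D0 = (m + 1) C0`.) `A = 2 (D0 + 1)/c`, `Y = exp (16 A)`, `Q = B Y^(3/2)`, `κ = c/(2 Q)`, `θ = κ/16`, `ε = κ/(8 C0)`, `M = X^c`.
`S1`: some `a ≤ E b`, `nn a ≤ M`, `tau (E b) ≤ exp (D0/θ) tau a` (`nn (E b) ≤ M`, or the first prime `l0` of the rest has norm `> X^θ`):
`cls` with `σ = 0`, `y = X`. `S2`: `X^κ < N l ^ (E b l)` for some `N l ≤ X^θ`: `pp` and the divisor bound. `S3 v`: `N l0 ≤ X^(1/v)`, `X^(c/2) < nn a ≤ M`,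
`tau (E b) ≤ exp (D0 (v + 1)) tau a`: `cls` with `y = X^(1/v)`, `σ = A/log y`, saving `exp (-A c v/2) = exp (-(D0 + 1) v)`.
-/

set_option autoImplicit false

noncomputable section

namespace H51.AV

theorem tg_nonneg {ι : Type} [Fintype ι] [DecidableEq ι] (Z P : Finset ι) (m : ℕ) (e : ι → ℕ) : 0 ≤ tg Z P m e :=
  (tg_pos Z P m e).le

theorem sum_biUnion_leG {β : Type} [DecidableEq β] (V : Finset ℕ) (t : ℕ → Finset β) (f : β → ℝ) (hf : ∀ b, 0 ≤ f b) :
    ∑ b ∈ V.biUnion t, f b ≤ ∑ v ∈ V, ∑ b ∈ t v, f b := by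
  classical
  induction V using Finset.induction_on with
  | empty => simp
  | insert v V hv ih =>
    rw [Finset.biUnion_insert, Finset.sum_insert hv]
    have h1 := Finset.sum_union_inter (s₁ := t v) (s₂ := V.biUnion t) (f := f)
    have h2 : 0 ≤ ∑ b ∈ t v ∩ V.biUnion t, f b := Finset.sum_nonneg fun b _ => hf b
    linarith

/-- where `b` belongs -/
theorem coverG {ι : Type} [Fintype ι] [LinearOrder ι] {B : ℝ} (hB : 1 ≤ B) {N : ι → ℝ} (h : Hyp B N) (Z P : Finset ι) (m : ℕ)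
    (C0 D0 : ℝ) (hD0 : D0 = (m + 1) * C0) (c κ θ Y X : ℝ) (hC0 : 1 ≤ C0) (hc : 0 < c) (hκ : 0 < κ) (hκc : κ ≤ c / 2) (hθ : 0 < θ) (hθ1 : θ ≤ 1) (hY : 1 ≤ Y)
    (hκY : κ * (B * Y ^ (3 / 2 : ℝ)) ≤ c / 2) (hX : 2 ≤ X) (e : ι → ℕ) (he : nn N e ≤ X ^ C0) :
    (∃ a : ι → ℕ, (∀ l, a l ≤ e l) ∧ nn N a ≤ X ^ c ∧ tg Z P m e ≤ Real.exp (D0 / θ) * tg Z P m a) ∨
    (∃ l, N l ≤ X ^ θ ∧ X ^ κ < N l ^ e l) ∨
    ∃ v : ℕ, 1 ≤ v ∧ v ≤ ⌊Real.log X / Real.log 2⌋₊ ∧ Y < X ^ (1 / (v : ℝ)) ∧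
      ∃ a : ι → ℕ, (∀ l, a l ≤ e l) ∧ nn N a ≤ X ^ c ∧ X ^ (c / 2) ≤ nn N a ∧
        tg Z P m e ≤ Real.exp (D0 * (v + 1)) * tg Z P m a ∧ ∀ l, X ^ (1 / (v : ℝ)) < N l → a l = 0 := by
  classical
  have hX0 : 0 < X := by linarith
  have hX1 : 1 ≤ X := by linarith
  have hlX : 0 < Real.log X := Real.log_pos (by linarith)
  have hM1 : 1 ≤ X ^ c := Real.one_le_rpow hX1 hc.le
  have hm0 : (0 : ℝ) < (m : ℝ) + 1 := by positivity
  have h2exp : ∀ n : ℕ, (2 : ℝ) ^ n ≤ Real.exp n := by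
    intro n
    have : (2 : ℝ) ≤ Real.exp 1 := by have := Real.add_one_le_exp (1 : ℝ); linarith
    calc (2 : ℝ) ^ n ≤ (Real.exp 1) ^ n := pow_le_pow_left₀ (by norm_num) this n
      _ = Real.exp n := by rw [← Real.exp_nat_mul, mul_one]
  by_cases hle : nn N e ≤ X ^ c
  · left
    refine ⟨e, fun l => le_rfl, hle, ?_⟩
    have h1 : 1 ≤ Real.exp (D0 / θ) := Real.one_le_exp (by rw [hD0]; positivity)
    nlinarith [tg_nonneg Z P m e]
  have hlt : X ^ c < nn N e := not_le.1 hle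
  obtain ⟨l0, hp1, hp2⟩ := exists_pre h e (X ^ c) hM1 hlt
  obtain ⟨n, hn1, hn2⟩ := tg_pre h Z P m e l0
  have hN2 := h.two l0
  have hN0 : 0 < N l0 := by linarith
  have hlN : 0 < Real.log (N l0) := Real.log_pos (by linarith)
  have hnlog : (n : ℝ) * Real.log (N l0) ≤ C0 * Real.log X := by
    have h3 : Real.log (N l0 ^ n) ≤ Real.log (X ^ C0) :=
      Real.log_le_log (pow_pos hN0 n) (hn2.trans he)
    rwa [Real.log_pow, Real.log_rpow hX0] at h3
  by_cases hbig : X ^ θ < N l0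
  · left
    refine ⟨pre e l0, pre_le e l0, hp1, hn1.trans ?_⟩
    rw [mul_comm]
    refine mul_le_mul_of_nonneg_right ((h2exp ((m + 1) * n)).trans (Real.exp_le_exp.2 ?_)) (tg_nonneg Z P m _)
    have h3 : θ * Real.log X < Real.log (N l0) := by
      have := Real.log_lt_log (Real.rpow_pos_of_pos hX0 θ) hbig
      rwa [Real.log_rpow hX0] at this
    rw [le_div_iff₀ hθ]
    have h4 : (n : ℝ) * (θ * Real.log X) ≤ C0 * Real.log X :=
      (mul_le_mul_of_nonneg_left h3.le (Nat.cast_nonneg n)).trans hnlog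
    have h5 : (n : ℝ) * θ ≤ C0 := by nlinarith
    push_cast
    rw [hD0, mul_assoc]
    exact mul_le_mul_of_nonneg_left h5 hm0.le
  have hsm : N l0 ≤ X ^ θ := not_lt.1 hbig
  right
  by_cases hpp : ∃ l, N l ≤ X ^ θ ∧ X ^ κ < N l ^ e l
  · left; exact hpp
  right
  push Not at hpp
  have hU1 : 1 ≤ X ^ κ := Real.one_le_rpow hX1 hκ.le
  have hnnpos : 0 < nn N (pre e l0) := by have := one_le_nn h (pre e l0); linarith
  have ha2 : X ^ (c / 2) ≤ nn N (pre e l0) := by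
    have h3 : X ^ c < nn N (pre e l0) * X ^ κ :=
      lt_of_lt_of_le hp2 (mul_le_mul_of_nonneg_left (hpp l0 hsm) hnnpos.le)
    have h4 : X ^ (c / 2) * X ^ κ ≤ X ^ c := by
      rw [← Real.rpow_add hX0]
      exact Real.rpow_le_rpow_of_exponent_le hX1 (by linarith)
    have h5 : X ^ (c / 2) * X ^ κ ≤ nn N (pre e l0) * X ^ κ := h4.trans h3.le
    exact le_of_mul_le_mul_right h5 (by linarith)
  have ha2' : X ^ (c / 2) < nn N (pre e l0) := by
    have h3 : X ^ c < nn N (pre e l0) * X ^ κ :=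
      lt_of_lt_of_le hp2 (mul_le_mul_of_nonneg_left (hpp l0 hsm) hnnpos.le)
    have h4 : X ^ (c / 2) * X ^ κ ≤ X ^ c := by
      rw [← Real.rpow_add hX0]
      exact Real.rpow_le_rpow_of_exponent_le hX1 (by linarith)
    exact lt_of_mul_lt_mul_right (lt_of_le_of_lt h4 h3) (by linarith)
  have hYl : Y < N l0 := by
    by_contra hcon
    have hcon' : N l0 ≤ Y := not_lt.1 hcon
    have h3 : nn N (pre e l0) ≤ X ^ (c / 2) := by
      rw [nn_pre]
      calc ∏ l with l < l0, N l ^ e l ≤ ∏ l with l < l0, X ^ κ := by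
            refine Finset.prod_le_prod (fun l _ => pow_nonneg (by have := h.two l; linarith) _) fun l hl => ?_
            have hl' : l < l0 := (Finset.mem_filter.1 hl).2
            exact hpp l ((h.mono hl'.le).trans hsm)
        _ = (X ^ κ) ^ (Finset.univ.filter (fun l => l < l0)).card := by rw [Finset.prod_const]
        _ ≤ (X ^ κ) ^ (Finset.univ.filter (fun l => N l ≤ Y)).card := by
            refine pow_le_pow_right₀ hU1 (Finset.card_le_card fun l hl => ?_)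
            have hl' : l < l0 := (Finset.mem_filter.1 hl).2
            exact Finset.mem_filter.2 ⟨Finset.mem_univ _, (h.mono hl'.le).trans hcon'⟩
        _ = X ^ (κ * ((Finset.univ.filter (fun l => N l ≤ Y)).card : ℝ)) := by
            rw [Real.rpow_mul hX0.le, Real.rpow_natCast]
        _ ≤ X ^ (c / 2) := by
            refine Real.rpow_le_rpow_of_exponent_le hX1 (le_trans ?_ hκY)
            exact mul_le_mul_of_nonneg_left (card_le h Y (by linarith)) hκ.le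
    linarith
  have hNX : N l0 ≤ X := hsm.trans (by
    calc X ^ θ ≤ X ^ (1 : ℝ) := Real.rpow_le_rpow_of_exponent_le hX1 hθ1
      _ = X := Real.rpow_one X)
  have hlNX : Real.log (N l0) ≤ Real.log X := Real.log_le_log hN0 hNX
  set q : ℝ := Real.log X / Real.log (N l0) with hq
  have hq1 : 1 ≤ q := by rw [hq, le_div_iff₀ hlN]; linarith
  have hv1 : 1 ≤ ⌊q⌋₊ := Nat.le_floor (by exact_mod_cast hq1)
  have hvq : (⌊q⌋₊ : ℝ) ≤ q := Nat.floor_le (by linarith)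
  have hqv : q < (⌊q⌋₊ : ℝ) + 1 := Nat.lt_floor_add_one q
  have hv0 : (0 : ℝ) < (⌊q⌋₊ : ℝ) := by exact_mod_cast hv1
  have hNv : N l0 ≤ X ^ (1 / (⌊q⌋₊ : ℝ)) := by
    have h3 : Real.log (N l0) ≤ 1 / (⌊q⌋₊ : ℝ) * Real.log X := by
      rw [one_div, inv_mul_eq_div, le_div_iff₀ hv0]
      have h4 : (⌊q⌋₊ : ℝ) * Real.log (N l0) ≤ q * Real.log (N l0) := mul_le_mul_of_nonneg_right hvq hlN.le
      rw [hq, div_mul_cancel₀ _ hlN.ne'] at h4
      linarith
    calc N l0 = Real.exp (Real.log (N l0)) := (Real.exp_log hN0).symm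
      _ ≤ Real.exp (1 / (⌊q⌋₊ : ℝ) * Real.log X) := Real.exp_le_exp.2 h3
      _ = X ^ (1 / (⌊q⌋₊ : ℝ)) := by rw [Real.rpow_def_of_pos hX0, mul_comm]
  refine ⟨⌊q⌋₊, hv1, ?_, lt_of_lt_of_le hYl hNv, pre e l0, pre_le e l0, hp1, ha2, ?_, ?_⟩
  · refine Nat.floor_le_floor ?_
    rw [hq]
    exact div_le_div_of_nonneg_left hlX.le (Real.log_pos (by norm_num)) (Real.log_le_log (by norm_num) hN2)
  · refine hn1.trans ?_
    rw [mul_comm]
    refine mul_le_mul_of_nonneg_right ((h2exp ((m + 1) * n)).trans (Real.exp_le_exp.2 ?_)) (tg_nonneg Z P m _)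
    have h4 : (n : ℝ) * Real.log (N l0) ≤ C0 * ((⌊q⌋₊ : ℝ) + 1) * Real.log (N l0) := by
      refine hnlog.trans ?_
      have h5 : q * Real.log (N l0) = Real.log X := by rw [hq, div_mul_cancel₀ _ hlN.ne']
      have h6 : q * Real.log (N l0) ≤ ((⌊q⌋₊ : ℝ) + 1) * Real.log (N l0) :=
        mul_le_mul_of_nonneg_right hqv.le hlN.le
      rw [h5] at h6
      calc C0 * Real.log X ≤ C0 * (((⌊q⌋₊ : ℝ) + 1) * Real.log (N l0)) :=
            mul_le_mul_of_nonneg_left h6 (by linarith)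
        _ = _ := by ring
    have h7 : (n : ℝ) ≤ C0 * ((⌊q⌋₊ : ℝ) + 1) := le_of_mul_le_mul_right h4 hlN
    push_cast
    rw [hD0, mul_assoc]
    exact mul_le_mul_of_nonneg_left h7 hm0.le
  · intro l hl
    unfold pre
    split_ifs with hll
    · exact absurd ((h.mono hll.le).trans hNv) (not_le.2 hl)
    · rfl

/-- the prefix lemma for `tg` -/
theorem pfxT (B C0 c : ℝ) (m : ℕ) (hB : 1 ≤ B) (hC0 : 1 ≤ C0) (hc : 0 < c) (hc1 : c ≤ 1) : ∃ C' : ℝ, 1 ≤ C' ∧
    ∀ (ι : Type) [Fintype ι] [LinearOrder ι] (N : ι → ℝ), Hyp B N → ∀ (Z : Finset ι) (w : ι → ℕ → ℝ), Den B N Z w →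
    ∀ (P : Finset ι) (X T : ℝ), 2 ≤ X → 0 ≤ T →
    ∀ (β : Type) (S : Finset β) (E : β → ι → ℕ), (∀ b ∈ S, nn N (E b) ≤ X ^ C0) →
      (∀ e : ι → ℕ, nn N e ≤ X ^ c →
        ((S.filter (fun b => ∀ l, e l ≤ E b l)).card : ℝ) ≤ T * ∏ l, w l (e l)) →
      ∑ b ∈ S, tg Z P m (E b) ≤
        C' * T * Real.exp (∑ l ∈ P with N l ≤ X, 1 / N l + C' * ∑ l ∈ Z, 1 / N l) := by
  classical
  have hm0 : (0 : ℝ) < (m : ℝ) + 1 := by positivity
  set D0 : ℝ := (m + 1) * C0 with hD0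
  have hD01 : 1 ≤ D0 := by
    rw [hD0]
    have : (0 : ℝ) ≤ (m : ℝ) := Nat.cast_nonneg m
    nlinarith
  set A : ℝ := 2 * (D0 + 1) / c with hA
  have hA0 : 0 < A := by positivity
  set Y : ℝ := Real.exp (16 * A) with hY
  have hY1 : 1 ≤ Y := Real.one_le_exp (by positivity)
  set Q : ℝ := B * Y ^ (3 / 2 : ℝ) with hQ
  have hQ1 : 1 ≤ Q := by
    have : 1 ≤ Y ^ (3 / 2 : ℝ) := Real.one_le_rpow hY1 (by norm_num)
    nlinarith
  set κ : ℝ := c / (2 * Q) with hκ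
  have hκ0 : 0 < κ := by positivity
  have hκc : κ ≤ c / 2 := by
    rw [hκ, div_le_div_iff₀ (by positivity) (by norm_num)]
    nlinarith
  set θ : ℝ := κ / 16 with hθ
  have hθ0 : 0 < θ := by positivity
  have hθ1 : θ ≤ 1 := by linarith
  set ε : ℝ := κ / (8 * C0) with hε
  have hε0 : 0 < ε := by positivity
  obtain ⟨C1, hC1, hcls⟩ := clsG A B m hA0.le hB
  obtain ⟨C2, hC2, htau⟩ := tg_le B ε m hε0
  set D1 : ℝ := Real.exp (D0 / θ) with hD1
  set C' : ℝ := D1 * C1 + B * B * C2 + 2 * Real.exp D0 * C1 + C1 with hC'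
  have hD1' : 0 < D1 := Real.exp_pos _
  have hC1C' : C1 ≤ C' := by
    have h1 : 0 ≤ D1 * C1 := by positivity
    have h2 : 0 ≤ B * B * C2 := by positivity
    have h3 : 0 ≤ 2 * Real.exp D0 * C1 := by positivity
    linarith
  refine ⟨C', hC1.trans hC1C', ?_⟩
  intro ι _ _ N h Z w hw P X T hX hT β S E hE hd
  have hX0 : 0 < X := by linarith
  have hX1 : 1 ≤ X := by linarith
  have hlX : 0 < Real.log X := Real.log_pos (by linarith)
  have hZ0 : 0 ≤ ∑ l ∈ Z, 1 / N l := Finset.sum_nonneg fun l _ => by have := h.two l; positivity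
  have hP0 : 0 ≤ ∑ l ∈ P with N l ≤ X, 1 / N l := Finset.sum_nonneg fun l _ => by have := h.two l; positivity
  set W : ℝ := Real.exp (∑ l ∈ P with N l ≤ X, 1 / N l + C1 * ∑ l ∈ Z, 1 / N l) with hW
  have hW1 : 1 ≤ W := Real.one_le_exp (by positivity)
  have hWle : W ≤ Real.exp (∑ l ∈ P with N l ≤ X, 1 / N l + C' * ∑ l ∈ Z, 1 / N l) := by
    refine Real.exp_le_exp.2 ?_
    have := mul_le_mul_of_nonneg_right hC1C' hZ0
    linarith
  -- the classes
  let Q1 : β → (ι → ℕ) → Prop := fun b a =>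
    (∀ l, a l ≤ E b l) ∧ nn N a ≤ X ^ c ∧ tg Z P m (E b) ≤ D1 * tg Z P m a
  let Q3 : ℕ → β → (ι → ℕ) → Prop := fun v b a =>
    (∀ l, a l ≤ E b l) ∧ nn N a ≤ X ^ c ∧ X ^ (c / 2) ≤ nn N a ∧
        tg Z P m (E b) ≤ Real.exp (D0 * (v + 1)) * tg Z P m a ∧ ∀ l, X ^ (1 / (v : ℝ)) < N l → a l = 0
  let S1 : Finset β := S.filter (fun b => ∃ a, Q1 b a)
  let S2 : Finset β := S.filter (fun b => ∃ l, N l ≤ X ^ θ ∧ X ^ κ < N l ^ E b l)
  let V : Finset ℕ := (Finset.range (⌊Real.log X / Real.log 2⌋₊ + 1)).filter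
    (fun v => 1 ≤ v ∧ Y < X ^ (1 / (v : ℝ)))
  let S3 : ℕ → Finset β := fun v => S.filter (fun b => ∃ a, Q3 v b a)
  have hcov : S ⊆ S1 ∪ (S2 ∪ V.biUnion S3) := by
    intro b hb
    have hκY : κ * (B * Y ^ (3 / 2 : ℝ)) ≤ c / 2 := by
      rw [← hQ, hκ]
      have : c / (2 * Q) * Q = c / 2 := by field_simp
      exact this.le
    rcases coverG hB h Z P m C0 D0 hD0 c κ θ Y X hC0 hc hκ0 hκc hθ0 hθ1 hY1 hκY hX (E b) (hE b hb) with h1 | h1 | h1
    · exact Finset.mem_union_left _ (Finset.mem_filter.2 ⟨hb, h1⟩)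
    · exact Finset.mem_union_right _ (Finset.mem_union_left _ (Finset.mem_filter.2 ⟨hb, h1⟩))
    · obtain ⟨v, hv1, hv2, hv3, a, ha⟩ := h1
      refine Finset.mem_union_right _ (Finset.mem_union_right _ (Finset.mem_biUnion.2 ⟨v, ?_, ?_⟩))
      · exact Finset.mem_filter.2 ⟨Finset.mem_range.2 (by omega), hv1, hv3⟩
      · exact Finset.mem_filter.2 ⟨hb, a, ha⟩
  have hsub : ∀ S' : Finset β, S' ⊆ S → ∀ e : ι → ℕ, nn N e ≤ X ^ c →
      ((S'.filter (fun b => ∀ l, e l ≤ E b l)).card : ℝ) ≤ T * ∏ l, w l (e l) := by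
    intro S' hS' e he
    refine le_trans ?_ (hd e he)
    exact_mod_cast Finset.card_le_card (Finset.filter_subset_filter _ hS')
  -- S1
  have hb1 : ∑ b ∈ S1, tg Z P m (E b) ≤ D1 * C1 * T * W := by
    have hch : ∀ b : β, ∃ a : ι → ℕ, b ∈ S1 → Q1 b a := by
      intro b
      by_cases hb : b ∈ S1
      · obtain ⟨a, ha⟩ := (Finset.mem_filter.1 hb).2
        exact ⟨a, fun _ => ha⟩
      · exact ⟨0, fun h' => absurd h' hb⟩
    choose a ha using hch
    have h1 := hcls ι N h Z w hw P (X ^ c) T X 0 hT hX le_rfl (by norm_num) (by simp [hA0.le]) β S1 E a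
      (hsub S1 (Finset.filter_subset _ _)) (fun b hb => (ha b hb).1) (fun b hb => (ha b hb).2.1) (by
        intro b hb l hl
        by_contra hne
        have h2 : N l ≤ nn N (a b) := by
          have h3 : nn N (Pi.single l 1) ≤ nn N (a b) := nn_mono h fun l' => by
            by_cases hl' : l' = l
            · subst hl'; rw [Pi.single_eq_same]; omega
            · rw [Pi.single_eq_of_ne hl']; exact Nat.zero_le _
          rwa [nn_single, pow_one] at h3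
        have h4 : X ^ c ≤ X := by
          calc X ^ c ≤ X ^ (1 : ℝ) := Real.rpow_le_rpow_of_exponent_le hX1 hc1
            _ = X := Real.rpow_one X
        have := (ha b hb).2.1
        linarith)
    calc ∑ b ∈ S1, tg Z P m (E b) ≤ ∑ b ∈ S1, D1 * (tg Z P m (a b) * nn N (a b) ^ (0 : ℝ)) := by
          refine Finset.sum_le_sum fun b hb => ?_
          rw [Real.rpow_zero, mul_one]
          exact (ha b hb).2.2
      _ = D1 * ∑ b ∈ S1, tg Z P m (a b) * nn N (a b) ^ (0 : ℝ) := by rw [Finset.mul_sum]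
      _ ≤ D1 * (C1 * T * W) := mul_le_mul_of_nonneg_left h1 hD1'.le
      _ = _ := by ring
  -- S2
  have hb2 : ∑ b ∈ S2, tg Z P m (E b) ≤ B * B * C2 * T * W := by
    have h1 := pp hB h hw (X ^ c) T (X ^ κ) (X ^ θ) hT (Real.one_le_rpow hX1 hκ0.le)
      (Real.one_le_rpow hX1 hθ0.le) (by
        rw [← Real.rpow_add hX0]
        exact Real.rpow_le_rpow_of_exponent_le hX1 (by rw [hθ]; linarith)) S E hd
    have h2 : ∀ b ∈ S2, tg Z P m (E b) ≤ C2 * X ^ (κ / 8) := by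
      intro b hb
      have hbS := (Finset.mem_filter.1 hb).1
      refine (htau ι N h Z P (E b)).trans (mul_le_mul_of_nonneg_left ?_ (by linarith))
      calc nn N (E b) ^ ε ≤ (X ^ C0) ^ ε :=
            Real.rpow_le_rpow (by have := one_le_nn h (E b); linarith) (hE b hbS) hε0.le
        _ = X ^ (κ / 8) := by
            rw [← Real.rpow_mul hX0.le, hε]
            congr 1
            field_simp
    have h3 : X ^ (κ / 8) * ((X ^ θ) ^ (3 / 2 : ℝ) * (X ^ κ) ^ (-(1 / 2) : ℝ)) ≤ 1 := by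
      rw [← Real.rpow_mul hX0.le, ← Real.rpow_mul hX0.le, ← Real.rpow_add hX0, ← Real.rpow_add hX0]
      exact Real.rpow_le_one_of_one_le_of_nonpos hX1 (by rw [hθ]; nlinarith)
    calc ∑ b ∈ S2, tg Z P m (E b) ≤ ∑ _b ∈ S2, C2 * X ^ (κ / 8) := Finset.sum_le_sum h2
      _ = (S2.card : ℝ) * (C2 * X ^ (κ / 8)) := by rw [Finset.sum_const, nsmul_eq_mul]
      _ ≤ (T * (B * B * (X ^ θ) ^ (3 / 2 : ℝ) * (X ^ κ) ^ (-(1 / 2) : ℝ))) * (C2 * X ^ (κ / 8)) :=
          mul_le_mul_of_nonneg_right h1 (by positivity)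
      _ = B * B * C2 * T * (X ^ (κ / 8) * ((X ^ θ) ^ (3 / 2 : ℝ) * (X ^ κ) ^ (-(1 / 2) : ℝ))) := by ring
      _ ≤ B * B * C2 * T * 1 := mul_le_mul_of_nonneg_left h3 (by positivity)
      _ ≤ B * B * C2 * T * W := mul_le_mul_of_nonneg_left hW1 (by positivity)
  -- S3
  have hb3 : ∀ v ∈ V, ∑ b ∈ S3 v, tg Z P m (E b) ≤ Real.exp D0 * C1 * T * W * Real.exp (-(v : ℝ)) := by
    intro v hv
    obtain ⟨-, hv1, hvY⟩ := Finset.mem_filter.1 hv
    have hv0 : (0 : ℝ) < v := by exact_mod_cast hv1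
    set y : ℝ := X ^ (1 / (v : ℝ)) with hy
    have hlogy : Real.log y = Real.log X / v := by rw [hy, Real.log_rpow hX0]; ring
    have h16 : 16 * A < Real.log y := by
      have := Real.log_lt_log (by linarith) hvY
      rwa [hY, Real.log_exp] at this
    have hlogy0 : 0 < Real.log y := by linarith
    have hAge : 1 ≤ A := by
      rw [hA, le_div_iff₀ hc]
      linarith
    have hy2 : 2 ≤ y := by
      have h1 : Real.exp 1 ≤ y := by
        rw [← Real.exp_log (show (0 : ℝ) < y from Real.rpow_pos_of_pos hX0 _)]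
        exact Real.exp_le_exp.2 (by linarith)
      have h2 := Real.add_one_le_exp (1 : ℝ)
      linarith
    have hch : ∀ b : β, ∃ a : ι → ℕ, b ∈ S3 v → Q3 v b a := by
      intro b
      by_cases hb : b ∈ S3 v
      · obtain ⟨a, ha⟩ := (Finset.mem_filter.1 hb).2
        exact ⟨a, fun _ => ha⟩
      · exact ⟨0, fun h' => absurd h' hb⟩
    choose a ha using hch
    have hσ0 : 0 ≤ A / Real.log y := by positivity
    have h1 := hcls ι N h Z w hw P (X ^ c) T y (A / Real.log y) hT hy2 hσ0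
      (by rw [div_le_iff₀ hlogy0]; linarith) (by rw [div_mul_cancel₀ _ hlogy0.ne']) β (S3 v) E a
      (hsub _ (Finset.filter_subset _ _)) (fun b hb => (ha b hb).1) (fun b hb => (ha b hb).2.1)
      (fun b hb => (ha b hb).2.2.2.2)
    have h2 : ∀ b ∈ S3 v, tg Z P m (E b) ≤
        Real.exp (D0 * (v + 1)) * Real.exp (-((D0 + 1) * v)) * (tg Z P m (a b) * nn N (a b) ^ (A / Real.log y)) := by
      intro b hb
      obtain ⟨-, -, q3, q4, -⟩ := ha b hb
      have h3 : Real.exp ((D0 + 1) * v) ≤ nn N (a b) ^ (A / Real.log y) := by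
        calc Real.exp ((D0 + 1) * v) = (X ^ (c / 2)) ^ (A / Real.log y) := by
              rw [← Real.rpow_mul hX0.le, Real.rpow_def_of_pos hX0, hlogy]
              congr 1
              rw [hA]
              field_simp
          _ ≤ _ := Real.rpow_le_rpow (Real.rpow_nonneg hX0.le _) q3 hσ0
      have h4 : 1 ≤ Real.exp (-((D0 + 1) * v)) * nn N (a b) ^ (A / Real.log y) := by
        calc (1 : ℝ) = Real.exp (-((D0 + 1) * v)) * Real.exp ((D0 + 1) * v) := by rw [← Real.exp_add]; simp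
          _ ≤ _ := mul_le_mul_of_nonneg_left h3 (Real.exp_pos _).le
      calc tg Z P m (E b) ≤ Real.exp (D0 * (v + 1)) * tg Z P m (a b) := q4
        _ = Real.exp (D0 * (v + 1)) * tg Z P m (a b) * 1 := by ring
        _ ≤ Real.exp (D0 * (v + 1)) * tg Z P m (a b) *
            (Real.exp (-((D0 + 1) * v)) * nn N (a b) ^ (A / Real.log y)) :=
            mul_le_mul_of_nonneg_left h4 (mul_nonneg (Real.exp_pos _).le (tg_nonneg Z P m _))
        _ = _ := by ring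
    have h5 : Real.exp (D0 * (v + 1)) * Real.exp (-((D0 + 1) * v)) = Real.exp D0 * Real.exp (-(v : ℝ)) := by
      rw [← Real.exp_add, ← Real.exp_add]
      congr 1
      ring
    have h6 : Real.exp (∑ l ∈ P with N l ≤ y, 1 / N l + C1 * ∑ l ∈ Z, 1 / N l) ≤ W := by
      refine Real.exp_le_exp.2 (by
        have : ∑ l ∈ P with N l ≤ y, 1 / N l ≤ ∑ l ∈ P with N l ≤ X, 1 / N l := by
          refine Finset.sum_le_sum_of_subset_of_nonneg ?_ fun l _ _ => by have := h.two l; positivity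
          intro l hl
          obtain ⟨hlP, hly⟩ := Finset.mem_filter.1 hl
          refine Finset.mem_filter.2 ⟨hlP, hly.trans ?_⟩
          calc y ≤ X ^ (1 : ℝ) := Real.rpow_le_rpow_of_exponent_le hX1 (by
                rw [div_le_one hv0]; exact_mod_cast hv1)
            _ = X := Real.rpow_one X
        linarith)
    calc ∑ b ∈ S3 v, tg Z P m (E b) ≤ ∑ b ∈ S3 v, Real.exp (D0 * (v + 1)) * Real.exp (-((D0 + 1) * v)) *
          (tg Z P m (a b) * nn N (a b) ^ (A / Real.log y)) := Finset.sum_le_sum h2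
      _ = Real.exp D0 * Real.exp (-(v : ℝ)) * ∑ b ∈ S3 v, tg Z P m (a b) * nn N (a b) ^ (A / Real.log y) := by
          rw [← Finset.mul_sum, h5]
      _ ≤ Real.exp D0 * Real.exp (-(v : ℝ)) *
          (C1 * T * Real.exp (∑ l ∈ P with N l ≤ y, 1 / N l + C1 * ∑ l ∈ Z, 1 / N l)) :=
          mul_le_mul_of_nonneg_left h1 (by positivity)
      _ ≤ Real.exp D0 * Real.exp (-(v : ℝ)) * (C1 * T * W) := by
          refine mul_le_mul_of_nonneg_left (mul_le_mul_of_nonneg_left h6 (by positivity)) (by positivity)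
      _ = _ := by ring
  have hgeo : ∑ v ∈ V, Real.exp (-(v : ℝ)) ≤ 2 := by
    have h1 : ∑ v ∈ V, Real.exp (-(v : ℝ)) ≤ ∑ v ∈ Finset.range (⌊Real.log X / Real.log 2⌋₊ + 1), (1 / 2 : ℝ) ^ v := by
      refine (Finset.sum_le_sum fun v _ => ?_).trans
        (Finset.sum_le_sum_of_subset_of_nonneg (Finset.filter_subset _ _) fun v _ _ => by positivity)
      have h2 : (2 : ℝ) ≤ Real.exp 1 := by have := Real.add_one_le_exp (1 : ℝ); linarith
      have h3 : Real.exp (-(v : ℝ)) = (1 / Real.exp 1) ^ v := by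
        rw [Real.exp_neg, one_div, inv_pow, ← Real.exp_nat_mul, mul_one]
      rw [h3]
      exact pow_le_pow_left₀ (by positivity) (one_div_le_one_div_of_le (by norm_num) h2) v
    have h2 : ∑ v ∈ Finset.range (⌊Real.log X / Real.log 2⌋₊ + 1), (1 / 2 : ℝ) ^ v ≤ 2 := by
      have := Summable.sum_le_tsum (Finset.range (⌊Real.log X / Real.log 2⌋₊ + 1))
        (fun i _ => by positivity) summable_geometric_two
      rwa [tsum_geometric_two] at this
    linarith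
  have hall : ∑ b ∈ S, tg Z P m (E b) ≤ ∑ b ∈ S1, tg Z P m (E b) + (∑ b ∈ S2, tg Z P m (E b) +
      ∑ v ∈ V, ∑ b ∈ S3 v, tg Z P m (E b)) := by
    have hn : ∀ b : β, 0 ≤ tg Z P m (E b) := fun b => tg_nonneg Z P m _
    have u1 : ∀ U V' : Finset β, ∑ b ∈ U ∪ V', tg Z P m (E b) ≤ ∑ b ∈ U, tg Z P m (E b) + ∑ b ∈ V', tg Z P m (E b) := by
      intro U V'
      rw [← Finset.sum_union_inter]
      have : 0 ≤ ∑ b ∈ U ∩ V', tg Z P m (E b) := Finset.sum_nonneg fun b _ => hn b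
      linarith
    calc ∑ b ∈ S, tg Z P m (E b) ≤ ∑ b ∈ S1 ∪ (S2 ∪ V.biUnion S3), tg Z P m (E b) :=
          Finset.sum_le_sum_of_subset_of_nonneg hcov fun b _ _ => hn b
      _ ≤ ∑ b ∈ S1, tg Z P m (E b) + ∑ b ∈ S2 ∪ V.biUnion S3, tg Z P m (E b) := u1 _ _
      _ ≤ ∑ b ∈ S1, tg Z P m (E b) + (∑ b ∈ S2, tg Z P m (E b) + ∑ b ∈ V.biUnion S3, tg Z P m (E b)) := by
          have := u1 S2 (V.biUnion S3)
          linarith
      _ ≤ _ := by
          have := sum_biUnion_leG V S3 (fun b => tg Z P m (E b)) hn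
          linarith
  have hb3' : ∑ v ∈ V, ∑ b ∈ S3 v, tg Z P m (E b) ≤ 2 * Real.exp D0 * C1 * T * W := by
    calc _ ≤ ∑ v ∈ V, Real.exp D0 * C1 * T * W * Real.exp (-(v : ℝ)) := Finset.sum_le_sum hb3
      _ = Real.exp D0 * C1 * T * W * ∑ v ∈ V, Real.exp (-(v : ℝ)) := by rw [Finset.mul_sum]
      _ ≤ Real.exp D0 * C1 * T * W * 2 := mul_le_mul_of_nonneg_left hgeo (by positivity)
      _ = _ := by ring
  calc ∑ b ∈ S, tg Z P m (E b) ≤ D1 * C1 * T * W + (B * B * C2 * T * W + 2 * Real.exp D0 * C1 * T * W) := by linarith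
    _ = (D1 * C1 + B * B * C2 + 2 * Real.exp D0 * C1) * T * W := by ring
    _ ≤ C' * T * W := by
        refine mul_le_mul_of_nonneg_right (mul_le_mul_of_nonneg_right ?_ hT) (by linarith)
        rw [hC']
        linarith
    _ ≤ _ := mul_le_mul_of_nonneg_left hWle (by
        have : 0 ≤ C' := by linarith
        positivity)

/-- THE PREFIX LEMMA, for local factors `f l k ≤ (k+1)^m` everywhere and, outside `Z`, `≤ k + 1` on `P`, `≤ 1` outside `P` -/
theorem pfxG (B C0 c : ℝ) (m : ℕ) (hB : 1 ≤ B) (hC0 : 1 ≤ C0) (hc : 0 < c) (hc1 : c ≤ 1) : ∃ C' : ℝ, 1 ≤ C' ∧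
    ∀ (ι : Type) [Fintype ι] [LinearOrder ι] (N : ι → ℝ), Hyp B N → ∀ (Z : Finset ι) (w : ι → ℕ → ℝ), Den B N Z w →
    ∀ (P : Finset ι) (X T : ℝ), 2 ≤ X → 0 ≤ T →
    ∀ (f : ι → ℕ → ℝ), (∀ l k, 0 ≤ f l k) → (∀ l k, f l k ≤ ((k : ℝ) + 1) ^ m) →
      (∀ l k, l ∉ Z → l ∈ P → f l k ≤ (k : ℝ) + 1) → (∀ l k, l ∉ Z → l ∉ P → f l k ≤ 1) →
    ∀ (β : Type) (S : Finset β) (E : β → ι → ℕ), (∀ b ∈ S, nn N (E b) ≤ X ^ C0) →
      (∀ e : ι → ℕ, nn N e ≤ X ^ c →
        ((S.filter (fun b => ∀ l, e l ≤ E b l)).card : ℝ) ≤ T * ∏ l, w l (e l)) →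
      ∑ b ∈ S, ∏ l, f l (E b l) ≤
        C' * T * Real.exp (∑ l ∈ P with N l ≤ X, 1 / N l + C' * ∑ l ∈ Z, 1 / N l) := by
  classical
  obtain ⟨C', hC', h⟩ := pfxT B C0 c m hB hC0 hc hc1
  refine ⟨C', hC', ?_⟩
  intro ι _ _ N hN Z w hw P X T hX hT f f0 f1 f2 f3 β S E hE hd
  refine le_trans (Finset.sum_le_sum fun b _ => ?_) (h ι N hN Z w hw P X T hX hT β S E hE hd)
  refine Finset.prod_le_prod (fun l _ => f0 l _) fun l _ => ?_
  unfold fl
  split_ifs with h1 h2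
  · exact f1 l _
  · exact f2 l _ h1 h2
  · exact f3 l _ h1 h2

end H51.AV
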