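import Pool.Agent.H51.AV.Def

/-!
# (AV Dsm) The divisor sum: swapping `b` and the divisors

PROOF. With `g l k = f l k - f l (k - 1)` (`k ≥ 1`), `g l 0 = 1`: `f l a = ∑_{k ≤ a} g l k`, so by `Finset.prod_univ_sum` (take
`f l 0 = 1` outside `L`, where `a b l = 0`) `∏_{l ∈ L} f l (a b l) = ∑_{e ≤ a b} ∏ g l (e l)`, sum over `Fintype.piFinset`. Let `K` bound all
`a b l`, `b ∈ S`. Swap: every `e` occurring satisfies `e ≤ a b`, so `nn N e ≤ nn N (a b) ≤ M` and `e ≤ E b`; all terms are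
`≥ 0`; `∑_b 1[e ≤ a b] ≤ #{b ∈ S : e ≤ E b} ≤ T ∏ w l (e l)`. So the sum is at most `T ∑_e ∏ g l (e l) w l (e l)` over `e` with
`e l ≤ K`, `e l = 0` outside `L`, `= T ∏_{l ∈ L} (1 + ∑_{k = 1}^K g l k w l k)` (`Finset.prod_univ_sum` again).
-/

set_option autoImplicit false

noncomputable section

namespace H51.AV

private def gg {ι : Type} (f : ι → ℕ → ℝ) (l : ι) (k : ℕ) : ℝ := if k = 0 then 1 else f l k - f l (k - 1)

private theorem gg_nonneg {ι : Type} (f : ι → ℕ → ℝ) (hfm : ∀ l k, f l k ≤ f l (k + 1)) (l : ι) (k : ℕ) :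
    0 ≤ gg f l k := by
  unfold gg
  cases k with
  | zero => simp
  | succ k =>
    rw [if_neg (Nat.succ_ne_zero k), Nat.add_sub_cancel]
    have := hfm l k
    linarith

private theorem gg_succ {ι : Type} (f : ι → ℕ → ℝ) (l : ι) (k : ℕ) :
    gg f l (k + 1) = f l (k + 1) - f l k := by
  unfold gg
  rw [if_neg (Nat.succ_ne_zero k), Nat.add_sub_cancel]

private theorem gg_sum {ι : Type} (f : ι → ℕ → ℝ) (hf0 : ∀ l, f l 0 = 1) (l : ι) (a K : ℕ) (ha : a ≤ K) :
    ∑ k ∈ Finset.range (K + 1), (if k ≤ a then gg f l k else 0) = f l a := by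
  rw [← Finset.sum_filter]
  have h1 : (Finset.range (K + 1)).filter (fun k => k ≤ a) = Finset.range (a + 1) := by
    ext k
    simp only [Finset.mem_filter, Finset.mem_range]
    omega
  rw [h1]
  clear h1 ha
  induction a with
  | zero => simp [gg, hf0]
  | succ a ih =>
    rw [Finset.sum_range_succ, ih, gg_succ]
    ring

theorem dsm {ι β : Type} [Fintype ι] [LinearOrder ι] (N : ι → ℝ) (hN : ∀ l, 1 ≤ N l) (w : ι → ℕ → ℝ)
    (hw0 : ∀ l, w l 0 = 1) (hw : ∀ l k, 0 ≤ w l k) (S : Finset β) (E a : β → ι → ℕ) (M T : ℝ) (hT : 0 ≤ T)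
    (hd : ∀ e : ι → ℕ, nn N e ≤ M →
      ((S.filter (fun b => ∀ l, e l ≤ E b l)).card : ℝ) ≤ T * ∏ l, w l (e l))
    (haE : ∀ b ∈ S, ∀ l, a b l ≤ E b l) (haM : ∀ b ∈ S, nn N (a b) ≤ M)
    (L : Finset ι) (haL : ∀ b ∈ S, ∀ l, l ∉ L → a b l = 0)
    (f : ι → ℕ → ℝ) (hf0 : ∀ l, f l 0 = 1) (hfm : ∀ l k, f l k ≤ f l (k + 1)) (G : ι → ℝ)
    (hG : ∀ l ∈ L, ∀ K : ℕ, ∑ k ∈ Finset.range K, (f l (k + 1) - f l k) * w l (k + 1) ≤ G l) :
    ∑ b ∈ S, ∏ l ∈ L, f l (a b l) ≤ T * ∏ l ∈ L, (1 + G l) := by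
  classical
  obtain ⟨K, hK⟩ : ∃ K : ℕ, ∀ b ∈ S, ∀ l, a b l ≤ K := by
    refine ⟨∑ b ∈ S, ∑ l, a b l, fun b hb l => ?_⟩
    calc a b l ≤ ∑ l, a b l := Finset.single_le_sum (f := fun l => a b l) (fun _ _ => Nat.zero_le _) (Finset.mem_univ l)
      _ ≤ ∑ b ∈ S, ∑ l, a b l :=
        Finset.single_le_sum (f := fun b => ∑ l, a b l) (fun _ _ => Nat.zero_le _) hb
  obtain ⟨t, ht⟩ : ∃ t : ι → Finset ℕ, t = fun l => if l ∈ L then Finset.range (K + 1) else {0} := ⟨_, rfl⟩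
  obtain ⟨h, hh⟩ : ∃ h : β → ι → ℕ → ℝ, h = fun b l k => if k ≤ a b l then gg f l k else 0 := ⟨_, rfl⟩
  have htL : ∀ l ∈ L, t l = Finset.range (K + 1) := fun l hl => by rw [ht]; exact if_pos hl
  have htN : ∀ l, l ∉ L → t l = {0} := fun l hl => by rw [ht]; exact if_neg hl
  -- the product for a single b
  have step1 : ∀ b ∈ S, ∏ l ∈ L, f l (a b l) = ∑ e ∈ Fintype.piFinset t, ∏ l, h b l (e l) := by
    intro b hb
    rw [← Finset.prod_univ_sum]
    have h1 : ∀ l ∈ L, f l (a b l) = ∑ k ∈ t l, h b l k := by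
      intro l hl
      rw [htL l hl, hh]
      exact (gg_sum f hf0 l (a b l) K (hK b hb l)).symm
    rw [Finset.prod_congr rfl h1]
    refine Finset.prod_subset (Finset.subset_univ L) (fun l _ hl => ?_)
    rw [htN l hl, Finset.sum_singleton, hh]
    show (if 0 ≤ a b l then gg f l 0 else 0) = 1
    rw [if_pos (Nat.zero_le _)]
    unfold gg
    exact if_pos rfl
  have step2 : ∀ e : ι → ℕ, ∑ b ∈ S, ∏ l, h b l (e l) ≤
      T * ∏ l, (gg f l (e l) * w l (e l)) := by
    intro e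
    have h1 : ∀ b ∈ S, ∏ l, h b l (e l) = if (∀ l, e l ≤ a b l) then ∏ l, gg f l (e l) else 0 := by
      intro b _
      by_cases hc : ∀ l, e l ≤ a b l
      · rw [if_pos hc]
        refine Finset.prod_congr rfl (fun l _ => ?_)
        rw [hh]
        exact if_pos (hc l)
      · rw [if_neg hc]
        push Not at hc
        obtain ⟨l, hl⟩ := hc
        refine Finset.prod_eq_zero (Finset.mem_univ l) ?_
        rw [hh]
        exact if_neg (not_le.mpr hl)
    rw [Finset.sum_congr rfl h1, ← Finset.sum_filter, Finset.sum_const, nsmul_eq_mul, Finset.prod_mul_distrib]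
    have hg0 : 0 ≤ ∏ l, gg f l (e l) := Finset.prod_nonneg (fun l _ => gg_nonneg f hfm l (e l))
    have hw1 : 0 ≤ ∏ l, w l (e l) := Finset.prod_nonneg (fun l _ => hw l (e l))
    have h2 : ((S.filter (fun b => ∀ l, e l ≤ a b l)).card : ℝ) ≤ T * ∏ l, w l (e l) := by
      by_cases hne : (S.filter (fun b => ∀ l, e l ≤ a b l)).Nonempty
      · obtain ⟨b, hb⟩ := hne
        rw [Finset.mem_filter] at hb
        have h3 : nn N e ≤ M := by
          refine le_trans ?_ (haM b hb.1)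
          unfold nn
          refine Finset.prod_le_prod (fun l _ => ?_) (fun l _ => ?_)
          · have := hN l
            positivity
          · exact pow_le_pow_right₀ (hN l) (hb.2 l)
        refine le_trans ?_ (hd e h3)
        have h4 : S.filter (fun b => ∀ l, e l ≤ a b l) ⊆ S.filter (fun b => ∀ l, e l ≤ E b l) := by
          intro b' hb'
          rw [Finset.mem_filter] at hb' ⊢
          exact ⟨hb'.1, fun l => le_trans (hb'.2 l) (haE b' hb'.1 l)⟩
        exact_mod_cast Finset.card_le_card h4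
      · rw [Finset.not_nonempty_iff_eq_empty] at hne
        rw [hne, Finset.card_empty, Nat.cast_zero]
        exact mul_nonneg hT hw1
    calc ((S.filter (fun b => ∀ l, e l ≤ a b l)).card : ℝ) * ∏ l, gg f l (e l)
        ≤ (T * ∏ l, w l (e l)) * ∏ l, gg f l (e l) := mul_le_mul_of_nonneg_right h2 hg0
      _ = T * ((∏ l, gg f l (e l)) * ∏ l, w l (e l)) := by ring
  have step3 : ∏ l, ∑ k ∈ t l, (gg f l k * w l k) ≤ ∏ l ∈ L, (1 + G l) := by
    have h1 : ∏ l, ∑ k ∈ t l, (gg f l k * w l k) = ∏ l ∈ L, ∑ k ∈ t l, (gg f l k * w l k) := by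
      refine (Finset.prod_subset (Finset.subset_univ L) (fun l _ hl => ?_)).symm
      rw [htN l hl, Finset.sum_singleton, hw0 l]
      unfold gg
      rw [if_pos rfl, mul_one]
    rw [h1]
    refine Finset.prod_le_prod (fun l _ => ?_) (fun l hl => ?_)
    · exact Finset.sum_nonneg (fun k _ => mul_nonneg (gg_nonneg f hfm l k) (hw l k))
    · rw [htL l hl, Finset.sum_range_succ']
      have h2 : gg f l 0 * w l 0 = 1 := by
        rw [hw0 l]
        unfold gg
        rw [if_pos rfl, mul_one]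
      have h3 : ∑ k ∈ Finset.range K, gg f l (k + 1) * w l (k + 1) =
          ∑ k ∈ Finset.range K, (f l (k + 1) - f l k) * w l (k + 1) :=
        Finset.sum_congr rfl (fun k _ => by rw [gg_succ])
      rw [h2, h3]
      have := hG l hl K
      linarith
  calc ∑ b ∈ S, ∏ l ∈ L, f l (a b l)
      = ∑ b ∈ S, ∑ e ∈ Fintype.piFinset t, ∏ l, h b l (e l) := Finset.sum_congr rfl step1
    _ = ∑ e ∈ Fintype.piFinset t, ∑ b ∈ S, ∏ l, h b l (e l) := Finset.sum_comm
    _ ≤ ∑ e ∈ Fintype.piFinset t, T * ∏ l, (gg f l (e l) * w l (e l)) := Finset.sum_le_sum (fun e _ => step2 e)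
    _ = T * ∏ l, ∑ k ∈ t l, (gg f l k * w l k) := by
      rw [← Finset.mul_sum, Finset.prod_univ_sum]
    _ ≤ T * ∏ l ∈ L, (1 + G l) := mul_le_mul_of_nonneg_left step3 hT

end H51.AV
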