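import Pool.Agent.H51.AV.Gf

/-!
# (AV Eub) The local factor at a bad prime with `(k+1)^m`
-/

set_option autoImplicit false

noncomputable section

namespace H51.AV

/-- `(k + 1) ^ m ≤ C 2^(k/16)` -/
theorem pow_le_two (m : ℕ) : ∃ C : ℝ, 1 ≤ C ∧ ∀ k : ℕ, ((k : ℝ) + 1) ^ m ≤ C * 2 ^ ((k : ℝ) / 16) := by
  set a : ℝ := 16 * (m + 1) / Real.log 2 + 1 with ha
  have hl2 : 0 < Real.log 2 := Real.log_pos (by norm_num)
  have ha1 : 1 ≤ a := by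
    have : 0 ≤ 16 * ((m : ℝ) + 1) / Real.log 2 := by positivity
    linarith
  refine ⟨a ^ m, one_le_pow₀ ha1, fun k => ?_⟩
  have hk : (0 : ℝ) ≤ k := Nat.cast_nonneg k
  have h1 : (k : ℝ) + 1 ≤ a * 2 ^ ((k : ℝ) / (16 * (m + 1))) := by
    have h2 : 1 + Real.log 2 * ((k : ℝ) / (16 * (m + 1))) ≤ 2 ^ ((k : ℝ) / (16 * (m + 1))) := by
      rw [Real.rpow_def_of_pos (by norm_num)]
      linarith [Real.add_one_le_exp (Real.log 2 * ((k : ℝ) / (16 * (m + 1))))]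
    have h3 : (k : ℝ) + 1 ≤ a * (1 + Real.log 2 * ((k : ℝ) / (16 * (m + 1)))) := by
      have h4 : (a - 1) * (Real.log 2 * ((k : ℝ) / (16 * (m + 1)))) = k := by
        rw [ha]
        field_simp
        ring
      have h5 : 0 ≤ Real.log 2 * ((k : ℝ) / (16 * (m + 1))) := by positivity
      nlinarith
    exact h3.trans (mul_le_mul_of_nonneg_left h2 (by linarith))
  calc ((k : ℝ) + 1) ^ m ≤ (a * 2 ^ ((k : ℝ) / (16 * (m + 1)))) ^ m := pow_le_pow_left₀ (by positivity) h1 m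
    _ = a ^ m * (2 ^ ((k : ℝ) / (16 * (m + 1)))) ^ m := mul_pow _ _ _
    _ ≤ a ^ m * 2 ^ ((k : ℝ) / 16) := by
        refine mul_le_mul_of_nonneg_left ?_ (by positivity)
        rw [← Real.rpow_natCast, ← Real.rpow_mul (by norm_num)]
        refine Real.rpow_le_rpow_of_exponent_le (by norm_num) ?_
        have h6 : (m : ℝ) / (m + 1) ≤ 1 := by rw [div_le_one (by positivity)]; linarith
        calc (k : ℝ) / (16 * (m + 1)) * m = (k : ℝ) / 16 * ((m : ℝ) / (m + 1)) := by field_simp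
          _ ≤ (k : ℝ) / 16 * 1 := mul_le_mul_of_nonneg_left h6 (by positivity)
          _ = _ := mul_one _

theorem eub (B : ℝ) (m : ℕ) (hB : 1 ≤ B) : ∃ D : ℝ, 1 ≤ D ∧
    ∀ (ι : Type) [DecidableEq ι] (N : ι → ℝ), (∀ l, 2 ≤ N l) → ∀ (Z : Finset ι)
    (w : ι → ℕ → ℝ), Den B N Z w → ∀ (P : Finset ι) (σ : ℝ), 0 ≤ σ → σ ≤ 1 / 16 → ∀ l ∈ Z, ∀ K : ℕ,
    ∑ k ∈ Finset.range K, (fg N Z P m σ l (k + 1) - fg N Z P m σ l k) * w l (k + 1) ≤ D * N l ^ (2 * σ - 1 : ℝ) := by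
  obtain ⟨C, hC, h⟩ := pow_le_two m
  refine ⟨C * B * 100, by nlinarith, ?_⟩
  intro ι _ N hN Z w hw P σ hσ hσ' l hl K
  have hN2 := hN l
  have hN0 : 0 < N l := by linarith
  have hN1 : 1 ≤ N l := by linarith
  set T : ℝ := N l ^ (2 * σ - 1 : ℝ) with hT
  have hT0 : 0 < T := Real.rpow_pos_of_pos hN0 _
  have key : ∀ k : ℕ, (fg N Z P m σ l (k + 1) - fg N Z P m σ l k) * w l (k + 1) ≤
      C * B * T * (8 * ((2 : ℝ) ^ (-(3 / 8) : ℝ)) ^ k) := by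
    intro k
    have h0 : 0 ≤ fg N Z P m σ l k := by
      unfold fg
      have := fl_one_le Z P m l k
      have := Real.rpow_nonneg hN0.le ((k : ℝ) * σ)
      positivity
    have hw0 := hw.nonneg l (k + 1)
    have h1 : (fg N Z P m σ l (k + 1) - fg N Z P m σ l k) * w l (k + 1) ≤ fg N Z P m σ l (k + 1) * w l (k + 1) :=
      mul_le_mul_of_nonneg_right (by linarith) hw0
    refine h1.trans ?_
    have h2 : fg N Z P m σ l (k + 1) ≤ C * 2 ^ (((k + 1 : ℕ) : ℝ) / 16) * N l ^ (((k + 1 : ℕ) : ℝ) * σ) := by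
      unfold fg fl
      rw [if_pos hl]
      exact mul_le_mul_of_nonneg_right (h (k + 1)) (Real.rpow_nonneg hN0.le _)
    have h3 := hw.le l (k + 1) (by omega)
    have h4 : N l ^ (((k + 1 : ℕ) : ℝ) * σ) * N l ^ (-(((k + 1 + 1) / 2 : ℕ) : ℝ)) ≤
        T * (2 * 2 ^ (-(7 / 16 * ((k : ℝ) - 1)))) := by
      rw [← Real.rpow_add hN0]
      have h5 : ((k + 1 : ℕ) : ℝ) * σ + -(((k + 1 + 1) / 2 : ℕ) : ℝ) =
          (2 * σ - 1) + (((k : ℝ) - 1) * σ - ((((k + 1 + 1) / 2 : ℕ) : ℝ) - 1)) := by push_cast; ring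
      rw [h5, Real.rpow_add hN0]
      refine mul_le_mul_of_nonneg_left ?_ hT0.le
      rcases Nat.eq_zero_or_pos k with hk | hk
      · subst hk
        have h6 : (((0 + 1 + 1) / 2 : ℕ) : ℝ) = 1 := by norm_num
        rw [h6]
        have h7 : N l ^ ((((0 : ℕ) : ℝ) - 1) * σ - (1 - 1)) ≤ 1 :=
          Real.rpow_le_one_of_one_le_of_nonpos hN1 (by push_cast; linarith)
        have h8 : (1 : ℝ) ≤ 2 * 2 ^ (-(7 / 16 * (((0 : ℕ) : ℝ) - 1))) := by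
          have : (1 : ℝ) ≤ 2 ^ (-(7 / 16 * (((0 : ℕ) : ℝ) - 1))) :=
            Real.one_le_rpow (by norm_num) (by push_cast; norm_num)
          linarith
        exact h7.trans h8
      · have hk1 : (0 : ℝ) ≤ (k : ℝ) - 1 := by
          have : (1 : ℝ) ≤ k := by exact_mod_cast hk
          linarith
        have h6 : ((k : ℝ) - 1) / 2 ≤ (((k + 1 + 1) / 2 : ℕ) : ℝ) - 1 := by
          have : k + 1 ≤ 2 * ((k + 1 + 1) / 2) := by omega
          have h' : (k : ℝ) + 1 ≤ 2 * (((k + 1 + 1) / 2 : ℕ) : ℝ) := by exact_mod_cast this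
          linarith
        have h7 : ((k : ℝ) - 1) * σ - ((((k + 1 + 1) / 2 : ℕ) : ℝ) - 1) ≤ -(7 / 16 * ((k : ℝ) - 1)) := by
          have : ((k : ℝ) - 1) * σ ≤ ((k : ℝ) - 1) * (1 / 16) := mul_le_mul_of_nonneg_left hσ' hk1
          linarith
        calc N l ^ (((k : ℝ) - 1) * σ - ((((k + 1 + 1) / 2 : ℕ) : ℝ) - 1)) ≤ N l ^ (-(7 / 16 * ((k : ℝ) - 1))) :=
              Real.rpow_le_rpow_of_exponent_le hN1 h7
          _ ≤ 2 ^ (-(7 / 16 * ((k : ℝ) - 1))) :=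
              Real.rpow_le_rpow_of_nonpos (by norm_num) hN2 (by nlinarith)
          _ ≤ 2 * 2 ^ (-(7 / 16 * ((k : ℝ) - 1))) := by
              have : (0 : ℝ) ≤ 2 ^ (-(7 / 16 * ((k : ℝ) - 1))) := Real.rpow_nonneg (by norm_num) _
              linarith
    have h9 : (2 : ℝ) ^ (((k + 1 : ℕ) : ℝ) / 16) * 2 ^ (-(7 / 16 * ((k : ℝ) - 1))) ≤
        4 * ((2 : ℝ) ^ (-(3 / 8) : ℝ)) ^ k := by
      rw [← Real.rpow_natCast ((2 : ℝ) ^ (-(3 / 8) : ℝ)), ← Real.rpow_mul (by norm_num), ← Real.rpow_add (by norm_num)]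
      have h10 : (4 : ℝ) = 2 ^ (2 : ℝ) := by norm_num
      rw [h10, ← Real.rpow_add (by norm_num)]
      refine Real.rpow_le_rpow_of_exponent_le (by norm_num) ?_
      push_cast
      linarith
    have hp1 : (0 : ℝ) ≤ 2 ^ (((k + 1 : ℕ) : ℝ) / 16) := Real.rpow_nonneg (by norm_num) _
    have hp2 : (0 : ℝ) ≤ N l ^ (((k + 1 : ℕ) : ℝ) * σ) := Real.rpow_nonneg hN0.le _
    have hB0 : 0 ≤ B := by linarith
    have hC0 : 0 ≤ C := by linarith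
    calc fg N Z P m σ l (k + 1) * w l (k + 1) ≤
        (C * 2 ^ (((k + 1 : ℕ) : ℝ) / 16) * N l ^ (((k + 1 : ℕ) : ℝ) * σ)) *
          (B * N l ^ (-(((k + 1 + 1) / 2 : ℕ) : ℝ))) :=
          mul_le_mul h2 h3 hw0 (by positivity)
      _ = C * B * (2 : ℝ) ^ (((k + 1 : ℕ) : ℝ) / 16) *
          (N l ^ (((k + 1 : ℕ) : ℝ) * σ) * N l ^ (-(((k + 1 + 1) / 2 : ℕ) : ℝ))) := by ring
      _ ≤ C * B * (2 : ℝ) ^ (((k + 1 : ℕ) : ℝ) / 16) * (T * (2 * 2 ^ (-(7 / 16 * ((k : ℝ) - 1))))) :=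
          mul_le_mul_of_nonneg_left h4 (by positivity)
      _ = C * B * T * (2 * ((2 : ℝ) ^ (((k + 1 : ℕ) : ℝ) / 16) * 2 ^ (-(7 / 16 * ((k : ℝ) - 1))))) := by ring
      _ ≤ C * B * T * (2 * (4 * ((2 : ℝ) ^ (-(3 / 8) : ℝ)) ^ k)) := by
          refine mul_le_mul_of_nonneg_left (mul_le_mul_of_nonneg_left h9 (by norm_num)) (by positivity)
      _ = _ := by ring
  have hr : (2 : ℝ) ^ (-(3 / 8) : ℝ) ≤ 4 / 5 := by
    have h1 : ((2 : ℝ) ^ (-(3 / 8) : ℝ)) ^ (8 : ℕ) = 1 / 8 := by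
      rw [← Real.rpow_natCast, ← Real.rpow_mul (by norm_num)]
      norm_num
    by_contra hcon
    have h2 : (4 / 5 : ℝ) < (2 : ℝ) ^ (-(3 / 8) : ℝ) := not_le.1 hcon
    have h3 := pow_lt_pow_left₀ h2 (by norm_num) (show (8 : ℕ) ≠ 0 by norm_num)
    rw [h1] at h3
    norm_num at h3
  have hr0 : (0 : ℝ) ≤ (2 : ℝ) ^ (-(3 / 8) : ℝ) := Real.rpow_nonneg (by norm_num) _
  have hgeo : ∑ k ∈ Finset.range K, ((2 : ℝ) ^ (-(3 / 8) : ℝ)) ^ k ≤ 5 := by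
    have h1 : ∑ k ∈ Finset.range K, ((2 : ℝ) ^ (-(3 / 8) : ℝ)) ^ k ≤ ∑ k ∈ Finset.range K, (4 / 5 : ℝ) ^ k :=
      Finset.sum_le_sum fun k _ => pow_le_pow_left₀ hr0 hr k
    have h2 : ∑ k ∈ Finset.range K, (4 / 5 : ℝ) ^ k ≤ 5 := by
      have h3 := geom_sum_eq (show (4 / 5 : ℝ) ≠ 1 by norm_num) K
      have h4 : ((4 / 5 : ℝ) ^ K - 1) / (4 / 5 - 1) = 5 * (1 - (4 / 5 : ℝ) ^ K) := by ring
      rw [h3, h4]
      have : (0 : ℝ) ≤ (4 / 5 : ℝ) ^ K := by positivity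
      linarith
    linarith
  calc _ ≤ ∑ k ∈ Finset.range K, C * B * T * (8 * ((2 : ℝ) ^ (-(3 / 8) : ℝ)) ^ k) := Finset.sum_le_sum fun k _ => key k
    _ = C * B * T * 8 * ∑ k ∈ Finset.range K, ((2 : ℝ) ^ (-(3 / 8) : ℝ)) ^ k := by
        rw [Finset.mul_sum]
        refine Finset.sum_congr rfl fun k _ => by ring
    _ ≤ C * B * T * 8 * 5 := mul_le_mul_of_nonneg_left hgeo (by positivity)
    _ ≤ C * B * 100 * T := by
        have : 0 ≤ C * B * T := by positivity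
        linarith

end H51.AV
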