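import Pool.Agent.H51.AV.PrdG
import Pool.Agent.H51.AV.Eub
import Pool.Agent.H51.AV.Dsm
import Pool.Agent.H51.AV.Eul

/-!
# (AV ClsG) The sum over a class of `b` with a prefix composed of primes of norm `≤ y`
-/

set_option autoImplicit false

noncomputable section

namespace H51.AV

theorem fg_zero {ι : Type} [DecidableEq ι] (N : ι → ℝ) (Z P : Finset ι) (m : ℕ) (σ : ℝ) (l : ι) :
    fg N Z P m σ l 0 = 1 := by
  unfold fg
  rw [fl_zero]
  simp

theorem fg_mono {ι : Type} [DecidableEq ι] {N : ι → ℝ} (hN : ∀ l, 2 ≤ N l) (Z P : Finset ι) (m : ℕ) {σ : ℝ}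
    (hσ : 0 ≤ σ) (l : ι) (k : ℕ) : fg N Z P m σ l k ≤ fg N Z P m σ l (k + 1) := by
  have h2 := hN l
  unfold fg
  refine mul_le_mul (fl_mono Z P m l k) ?_ (Real.rpow_nonneg (by linarith) _)
    (lt_of_lt_of_le one_pos (fl_one_le Z P m l _)).le
  refine Real.rpow_le_rpow_of_exponent_le (by linarith) ?_
  push_cast
  nlinarith

/-- the product of the local functions is `tg · nn^σ` -/
theorem prod_fg {ι : Type} [Fintype ι] [DecidableEq ι] {N : ι → ℝ} (hN : ∀ l, 2 ≤ N l) (Z P L : Finset ι) (m : ℕ)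
    (σ : ℝ) (a : ι → ℕ) (ha : ∀ l, l ∉ L → a l = 0) :
    ∏ l ∈ L, fg N Z P m σ l (a l) = tg Z P m a * nn N a ^ σ := by
  classical
  have h1 : ∏ l ∈ L, fg N Z P m σ l (a l) = ∏ l, fg N Z P m σ l (a l) := by
    refine Finset.prod_subset (Finset.subset_univ _) fun l _ hl => ?_
    rw [ha l hl, fg_zero]
  rw [h1]
  unfold fg tg nn
  rw [Finset.prod_mul_distrib, ← Real.finsetProd_rpow _ _ (fun l _ => pow_nonneg (by have := hN l; linarith) _)]
  congr 1
  refine Finset.prod_congr rfl fun l _ => ?_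
  rw [Real.rpow_mul (by have := hN l; linarith), Real.rpow_natCast]

theorem clsG (A B : ℝ) (m : ℕ) (hA : 0 ≤ A) (hB : 1 ≤ B) : ∃ C : ℝ, 1 ≤ C ∧
    ∀ (ι : Type) [Fintype ι] [LinearOrder ι] (N : ι → ℝ), Hyp B N → ∀ (Z : Finset ι) (w : ι → ℕ → ℝ), Den B N Z w →
    ∀ (P : Finset ι) (M T y σ : ℝ), 0 ≤ T → 2 ≤ y → 0 ≤ σ → σ ≤ 1 / 16 → σ * Real.log y ≤ A →
    ∀ (β : Type) (S : Finset β) (E a : β → ι → ℕ),
      (∀ e : ι → ℕ, nn N e ≤ M →
        ((S.filter (fun b => ∀ l, e l ≤ E b l)).card : ℝ) ≤ T * ∏ l, w l (e l)) →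
      (∀ b ∈ S, ∀ l, a b l ≤ E b l) → (∀ b ∈ S, nn N (a b) ≤ M) → (∀ b ∈ S, ∀ l, y < N l → a b l = 0) →
      ∑ b ∈ S, tg Z P m (a b) * nn N (a b) ^ σ ≤
        C * T * Real.exp (∑ l ∈ P with N l ≤ y, 1 / N l + C * ∑ l ∈ Z, 1 / N l) := by
  classical
  obtain ⟨D, hD, heub⟩ := eub B m hB
  obtain ⟨C, hC, h⟩ := prdG A B D hA hB hD
  refine ⟨C, hC, ?_⟩
  intro ι _ _ N hH Z w hw P M T y σ hT hy hσ hσ' hσA β S E a hd haE haM hay
  have h1 := dsm N (fun l => by have := hH.two l; linarith) w hw.w0 hw.nonneg S E a M T hT hd haE haM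
    (Finset.univ.filter (fun l => N l ≤ y)) (fun b hb l hl => hay b hb l (by simpa using hl))
    (fg N Z P m σ) (fg_zero N Z P m σ) (fg_mono hH.two Z P m hσ) (GD D B N Z P σ) (by
      intro l _ K
      unfold GD
      by_cases hZ : l ∈ Z
      · rw [if_pos hZ]
        exact heub ι N hH.two Z w hw P σ hσ hσ' l hZ K
      · rw [if_neg hZ]
        have h3 := eul_good B hB N hH.two Z w hw P σ hσ hσ' l hZ K
        have h4 : ∀ k, fg N Z P m σ l k = ff N P σ l k := by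
          intro k
          unfold fg fl ff
          rw [if_neg hZ]
        simp only [h4]
        exact h3)
  have h2 : ∑ b ∈ S, tg Z P m (a b) * nn N (a b) ^ σ =
      ∑ b ∈ S, ∏ l ∈ Finset.univ.filter (fun l => N l ≤ y), fg N Z P m σ l (a b l) := by
    refine Finset.sum_congr rfl fun b hb => ?_
    rw [prod_fg hH.two Z P _ m σ (a b) (fun l hl => hay b hb l (by simpa using hl))]
  rw [h2]
  refine h1.trans ?_
  have h3 := h ι N hH Z P y σ hy hσ hσ' hσA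
  calc _ ≤ T * (C * Real.exp (∑ l ∈ P with N l ≤ y, 1 / N l + C * ∑ l ∈ Z, 1 / N l)) :=
        mul_le_mul_of_nonneg_left h3 hT
    _ = _ := by ring

end H51.AV
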