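import Pool.Agent.H51.AV.Tau
import Pool.Agent.H51.AV.Pre

/-!
# (AV Gf) General local factors: definitions, the divisor bound, the prefix

`fl Z P m l k = (k+1)^m` on `Z`, `k+1` on `P`, `1` elsewhere; `tg e = ∏ fl l (e l)`; `fg = fl · N^(k σ)`.
-/

set_option autoImplicit false

noncomputable section

namespace H51.AV

/-- the local factor -/
def fl {ι : Type} [DecidableEq ι] (Z P : Finset ι) (m : ℕ) (l : ι) (k : ℕ) : ℝ :=
  if l ∈ Z then ((k : ℝ) + 1) ^ m else if l ∈ P then (k : ℝ) + 1 else 1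

/-- the product of the local factors -/
def tg {ι : Type} [Fintype ι] [DecidableEq ι] (Z P : Finset ι) (m : ℕ) (e : ι → ℕ) : ℝ := ∏ l, fl Z P m l (e l)

/-- the local factor with the weight `N^(k σ)` -/
def fg {ι : Type} [DecidableEq ι] (N : ι → ℝ) (Z P : Finset ι) (m : ℕ) (σ : ℝ) (l : ι) (k : ℕ) : ℝ :=
  fl Z P m l k * N l ^ ((k : ℝ) * σ)

theorem fl_one_le {ι : Type} [DecidableEq ι] (Z P : Finset ι) (m : ℕ) (l : ι) (k : ℕ) : 1 ≤ fl Z P m l k := by
  unfold fl
  have h : (1 : ℝ) ≤ (k : ℝ) + 1 := by have : (0 : ℝ) ≤ k := Nat.cast_nonneg k; linarith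
  split_ifs
  · exact one_le_pow₀ h
  · exact h
  · exact le_rfl

theorem fl_zero {ι : Type} [DecidableEq ι] (Z P : Finset ι) (m : ℕ) (l : ι) : fl Z P m l 0 = 1 := by
  unfold fl
  simp

theorem fl_mono {ι : Type} [DecidableEq ι] (Z P : Finset ι) (m : ℕ) (l : ι) (k : ℕ) :
    fl Z P m l k ≤ fl Z P m l (k + 1) := by
  unfold fl
  have h : (0 : ℝ) ≤ (k : ℝ) + 1 := by positivity
  split_ifs
  · refine pow_le_pow_left₀ h ?_ m
    push_cast
    linarith
  · push_cast
    linarith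
  · exact le_rfl

theorem fl_le {ι : Type} [DecidableEq ι] (Z P : Finset ι) (m : ℕ) (l : ι) (k : ℕ) :
    fl Z P m l k ≤ ((k : ℝ) + 1) ^ (m + 1) := by
  unfold fl
  have h : (1 : ℝ) ≤ (k : ℝ) + 1 := by have : (0 : ℝ) ≤ k := Nat.cast_nonneg k; linarith
  split_ifs
  · exact pow_le_pow_right₀ h (Nat.le_succ m)
  · calc (k : ℝ) + 1 = ((k : ℝ) + 1) ^ 1 := (pow_one _).symm
      _ ≤ _ := pow_le_pow_right₀ h (Nat.succ_le_succ (Nat.zero_le m))
  · exact one_le_pow₀ h

theorem tg_pos {ι : Type} [Fintype ι] [DecidableEq ι] (Z P : Finset ι) (m : ℕ) (e : ι → ℕ) : 0 < tg Z P m e :=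
  Finset.prod_pos fun l _ => lt_of_lt_of_le one_pos (fl_one_le Z P m l _)

/-- the divisor bound -/
theorem tg_le (B ε : ℝ) (m : ℕ) (hε : 0 < ε) : ∃ C : ℝ, 1 ≤ C ∧
    ∀ (ι : Type) [Fintype ι] [LinearOrder ι] (N : ι → ℝ), Hyp B N → ∀ (Z P : Finset ι) (e : ι → ℕ),
      tg Z P m e ≤ C * nn N e ^ ε := by
  classical
  obtain ⟨C, hC, h⟩ := tau_le B (ε / (m + 1)) (by positivity)
  refine ⟨C ^ (m + 1), one_le_pow₀ hC, fun ι _ _ N hN Z P e => ?_⟩
  have h1 : tg Z P m e ≤ tau Finset.univ e ^ (m + 1) := by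
    unfold tg tau
    rw [← Finset.prod_pow]
    exact Finset.prod_le_prod (fun l _ => (lt_of_lt_of_le one_pos (fl_one_le Z P m l _)).le) fun l _ => fl_le Z P m l _
  have h0 : 0 ≤ tau (Finset.univ : Finset ι) e := Finset.prod_nonneg fun l _ => by positivity
  have hnn : 0 ≤ nn N e := by have := one_le_nn hN e; linarith
  calc tg Z P m e ≤ tau Finset.univ e ^ (m + 1) := h1
    _ ≤ (C * nn N e ^ (ε / (m + 1))) ^ (m + 1) := pow_le_pow_left₀ h0 (h ι N hN Finset.univ e) _
    _ = C ^ (m + 1) * nn N e ^ ε := by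
        rw [mul_pow]
        congr 1
        rw [← Real.rpow_natCast, ← Real.rpow_mul hnn]
        congr 1
        push_cast
        field_simp

/-- the rest contributes at most `2^((m+1) n)` -/
theorem tg_pre {ι : Type} [Fintype ι] [LinearOrder ι] {B : ℝ} {N : ι → ℝ} (h : Hyp B N) (Z P : Finset ι) (m : ℕ)
    (e : ι → ℕ) (l0 : ι) :
    ∃ n : ℕ, tg Z P m e ≤ tg Z P m (pre e l0) * 2 ^ ((m + 1) * n) ∧ N l0 ^ n ≤ nn N e := by
  classical
  refine ⟨∑ l with ¬ l < l0, e l, ?_, ?_⟩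
  · unfold tg pre
    have h1 : ∏ l, fl Z P m l (e l)
        ≤ ∏ l, (fl Z P m l (if l < l0 then e l else 0) * 2 ^ ((m + 1) * (if ¬ l < l0 then e l else 0))) := by
      refine Finset.prod_le_prod (fun l _ => (lt_of_lt_of_le one_pos (fl_one_le Z P m l _)).le) (fun l _ => ?_)
      by_cases hl : l < l0
      · simp [hl]
      · simp only [hl, if_false, not_false_eq_true, if_true, fl_zero, one_mul]
        refine (fl_le Z P m l (e l)).trans ?_
        rw [mul_comm (m + 1), pow_mul]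
        refine pow_le_pow_left₀ (by positivity) ?_ _
        have : e l + 1 ≤ 2 ^ e l := Nat.lt_two_pow_self
        exact_mod_cast this
    refine h1.trans ?_
    rw [Finset.prod_mul_distrib]
    refine mul_le_mul_of_nonneg_left ?_ (Finset.prod_nonneg fun l _ =>
      (lt_of_lt_of_le one_pos (fl_one_le Z P m l _)).le)
    rw [Finset.prod_pow_eq_pow_sum]
    refine pow_le_pow_right₀ one_le_two ?_
    rw [Finset.sum_filter, Finset.mul_sum]
  · rw [← Finset.prod_pow_eq_pow_sum]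
    unfold nn
    rw [← Finset.prod_filter_mul_prod_filter_not Finset.univ (fun l => l < l0)]
    have h1 : (1 : ℝ) ≤ ∏ l with l < l0, N l ^ e l := by
      have := Finset.prod_le_prod (s := Finset.univ.filter fun l => l < l0) (f := fun _ => (1 : ℝ)) (g := fun l => N l ^ e l)
        (fun _ _ => zero_le_one) (fun l _ => one_le_pow₀ (by have := h.two l; linarith))
      simpa using this
    have h0 : ∀ l, 0 ≤ N l := fun l => by have := h.two l; linarith
    have h2 : ∏ l with ¬ l < l0, N l0 ^ e l ≤ ∏ l with ¬ l < l0, N l ^ e l := by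
      refine Finset.prod_le_prod (fun l _ => pow_nonneg (h0 l0) _) (fun l hl => ?_)
      rw [Finset.mem_filter] at hl
      exact pow_le_pow_left₀ (h0 l0) (h.mono (not_lt.mp hl.2)) _
    calc ∏ l with ¬ l < l0, N l0 ^ e l ≤ 1 * ∏ l with ¬ l < l0, N l ^ e l := by rw [one_mul]; exact h2
      _ ≤ _ := mul_le_mul_of_nonneg_right h1 (Finset.prod_nonneg fun l _ => pow_nonneg (h0 l) _)

end H51.AV
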