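import Pool.Agent.H51.AV.Def

/-!
# (AV Tau) The divisor bound

PROOF. The number of `l` with `N l ≤ x` is at most `B x^(3/2)` (`h.sq`). Let `L = 2^(1/ε)`. For `N l > L`:
`e l + 1 ≤ 2^(e l) ≤ N l ^ (ε e l)`. For `N l ≤ L`: `k + 1 ≤ C₁ 2^(ε k) ≤ C₁ N l ^ (ε k)` (`C₁ = 1 + 1/(ε log 2)`,
from `2^(ε k) ≥ 1 + ε k log 2`), at most `B L^(3/2)` such `l`: `C = C₁ ^ ⌈B L^(3/2)⌉`.
-/

set_option autoImplicit false

noncomputable section

namespace H51.AV

/-- the number of primes of norm at most `x` -/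
theorem card_le {ι : Type} [Fintype ι] [LinearOrder ι] {B : ℝ} {N : ι → ℝ} (h : Hyp B N) (x : ℝ) (hx : 0 < x) :
    ((Finset.univ.filter (fun l => N l ≤ x)).card : ℝ) ≤ B * x ^ (3 / 2 : ℝ) := by
  have hN : ∀ l, 0 < N l := fun l => by have := h.two l; linarith
  have h1 : ((Finset.univ.filter (fun l => N l ≤ x)).card : ℝ) * x ^ (-(3 / 2) : ℝ) ≤ B := by
    calc ((Finset.univ.filter (fun l => N l ≤ x)).card : ℝ) * x ^ (-(3 / 2) : ℝ)
        = ∑ _l ∈ Finset.univ.filter (fun l => N l ≤ x), x ^ (-(3 / 2) : ℝ) := by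
          rw [Finset.sum_const, nsmul_eq_mul]
      _ ≤ ∑ l ∈ Finset.univ.filter (fun l => N l ≤ x), N l ^ (-(3 / 2) : ℝ) := by
          refine Finset.sum_le_sum fun l hl => ?_
          exact Real.rpow_le_rpow_of_nonpos (hN l) (Finset.mem_filter.1 hl).2 (by norm_num)
      _ ≤ ∑ l, N l ^ (-(3 / 2) : ℝ) := by
          refine Finset.sum_le_sum_of_subset_of_nonneg (Finset.filter_subset _ _) fun l _ _ => ?_
          exact Real.rpow_nonneg (hN l).le _
      _ ≤ B := h.sq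
  have hx0 : 0 < x ^ (3 / 2 : ℝ) := Real.rpow_pos_of_pos hx _
  rw [Real.rpow_neg hx.le, ← div_eq_mul_inv, div_le_iff₀ hx0] at h1
  exact h1

theorem tau_le (B ε : ℝ) (hε : 0 < ε) : ∃ C : ℝ, 1 ≤ C ∧
    ∀ (ι : Type) [Fintype ι] [LinearOrder ι] (N : ι → ℝ), Hyp B N → ∀ (P : Finset ι) (e : ι → ℕ),
      tau P e ≤ C * nn N e ^ ε := by
  set L : ℝ := (2:ℝ) ^ (1 / ε) with hL
  have hL0 : 0 < L := Real.rpow_pos_of_pos two_pos _
  have hLε : L ^ ε = 2 := by
    rw [hL, ← Real.rpow_mul two_pos.le, one_div_mul_cancel hε.ne', Real.rpow_one]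
  have hlog : 0 < Real.log 2 := Real.log_pos one_lt_two
  set C1 : ℝ := 1 + 1 / (ε * Real.log 2) with hC1
  have hC11 : 1 ≤ C1 := by
    rw [hC1]
    have : 0 < 1 / (ε * Real.log 2) := by positivity
    linarith
  refine ⟨C1 ^ ⌈B * L ^ (3 / 2 : ℝ)⌉₊, one_le_pow₀ hC11, ?_⟩
  intro ι _ _ N h P e
  have hN : ∀ l, 0 < N l := fun l => by have := h.two l; linarith
  have hfac : ∀ l, ((e l : ℝ) + 1) ≤ (if N l ≤ L then C1 else 1) * (N l ^ e l) ^ ε := by
    intro l
    by_cases hl : N l ≤ L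
    · rw [if_pos hl]
      have h2 : ((2:ℝ) ^ e l) ^ ε ≤ (N l ^ e l) ^ ε :=
        Real.rpow_le_rpow (by positivity) (pow_le_pow_left₀ two_pos.le (h.two l) _) hε.le
      have h3 : 1 + ε * (e l) * Real.log 2 ≤ ((2:ℝ) ^ e l) ^ ε := by
        have h4 : ((2:ℝ) ^ e l) ^ ε = Real.exp (ε * (e l) * Real.log 2) := by
          rw [← Real.rpow_natCast, ← Real.rpow_mul two_pos.le, Real.rpow_def_of_pos two_pos]
          congr 1
          ring
        rw [h4, add_comm]
        exact Real.add_one_le_exp _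
      have h5 : (e l : ℝ) + 1 ≤ C1 * (1 + ε * (e l) * Real.log 2) := by
        have h6 : C1 * (1 + ε * (e l) * Real.log 2) = 1 + e l + ε * (e l) * Real.log 2 + 1 / (ε * Real.log 2) := by
          rw [hC1]
          field_simp
          ring
        rw [h6]
        have : 0 < 1 / (ε * Real.log 2) := by positivity
        have : 0 ≤ ε * (e l) * Real.log 2 := by positivity
        linarith
      exact h5.trans (mul_le_mul_of_nonneg_left (h3.trans h2) (by linarith))
    · rw [if_neg hl, one_mul]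
      push Not at hl
      have h2 : (2:ℝ) ≤ N l ^ ε := by
        rw [← hLε]
        exact Real.rpow_le_rpow hL0.le hl.le hε.le
      have h3 : (N l ^ e l) ^ ε = (N l ^ ε) ^ e l := by
        rw [← Real.rpow_natCast, ← Real.rpow_mul (hN l).le, ← Real.rpow_natCast, ← Real.rpow_mul (hN l).le,
          mul_comm]
      rw [h3]
      have h4 : (2:ℝ) ^ e l ≤ (N l ^ ε) ^ e l := pow_le_pow_left₀ two_pos.le h2 _
      have h5 : (e l : ℝ) + 1 ≤ (2:ℝ) ^ e l := by
        exact_mod_cast Nat.lt_two_pow_self (n := e l)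
      exact h5.trans h4
  have h1 : tau P e ≤ ∏ l, ((e l : ℝ) + 1) := by
    unfold tau
    refine Finset.prod_le_prod_of_subset_of_one_le (Finset.subset_univ P) (fun i _ => by positivity) fun i _ _ => ?_
    have : (0:ℝ) ≤ e i := Nat.cast_nonneg _
    linarith
  have h2 : ∏ l, ((e l : ℝ) + 1) ≤ ∏ l, (if N l ≤ L then C1 else 1) * (N l ^ e l) ^ ε :=
    Finset.prod_le_prod (fun l _ => by positivity) (fun l _ => hfac l)
  have h3 : ∏ l, (N l ^ e l) ^ ε = nn N e ^ ε := by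
    unfold nn
    exact Real.finsetProd_rpow _ _ (fun l _ => pow_nonneg (hN l).le _) _
  have h4 : ∏ l, (if N l ≤ L then C1 else 1) = C1 ^ (Finset.univ.filter (fun l => N l ≤ L)).card := by
    rw [← Finset.prod_filter, Finset.prod_const]
  have h5 : C1 ^ (Finset.univ.filter (fun l => N l ≤ L)).card ≤ C1 ^ ⌈B * L ^ (3 / 2 : ℝ)⌉₊ := by
    refine pow_le_pow_right₀ hC11 ?_
    have h6 := (card_le h L hL0).trans (Nat.le_ceil _)
    exact_mod_cast h6
  rw [Finset.prod_mul_distrib, h3, h4] at h2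
  refine (h1.trans h2).trans (mul_le_mul_of_nonneg_right h5 (Real.rpow_nonneg ?_ _))
  have := one_le_nn h e
  linarith

end H51.AV
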